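import Pool.Agent.Lib.MP_33d9ce_co.Slack.Defs

/-!
# Spanning hypercubes: the cube as a placement problem

Vertices of the cube are the functions `Dir k m r → ZMod 2`, where `Dir k m r` consists of `k` cell
coordinates, three copies of the cell coordinates, `4 * m` code coordinates and `r` further coordinates.
The vertex `x` lies in the cell `fun i => x (inl i)` and in the group `grp x`.
-/

set_option autoImplicit false

noncomputable section

open Classical Finset

namespace Pool.Agent.Lib.MP_33d9ce_co.Slack

/-- the coordinates that are not cell coordinates -/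
abbrev R (k m r : ℕ) : Type := (Fin 3 × Fin k) ⊕ ((Fin 4 × Fin m) ⊕ Fin r)

/-- all directions -/
abbrev Dir (k m r : ℕ) : Type := Fin k ⊕ R k m r

/-- cells -/
abbrev Cell (k : ℕ) : Type := Fin k → ZMod 2

/-- groups of the even vertices -/
abbrev Ev (k m r : ℕ) : Type := {h : R k m r → ZMod 2 // ∑ j, h j = 0}

/-- groups of the odd vertices -/
abbrev Od (k m r : ℕ) : Type := {h : R k m r → ZMod 2 // ∑ j, h j = 1}

/-- three copies of the cell vector -/
def spread {k : ℕ} (m r : ℕ) (u : Cell k) : R k m r → ZMod 2
  | .inl (_, i) => u i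
  | .inr _ => 0

/-- four copies of a code vector -/
def code {m : ℕ} (k r : ℕ) (c : Fin m → ZMod 2) : R k m r → ZMod 2
  | .inl _ => 0
  | .inr (.inl (_, i)) => c i
  | .inr (.inr _) => 0

/-- the group of a vertex of the cube -/
def grp {k m r : ℕ} (x : Dir k m r → ZMod 2) : R k m r → ZMod 2 :=
  (fun j => x (.inr j)) + spread m r (fun i => x (.inl i))

/-- the cell of a vertex of the cube -/
def cel {k m r : ℕ} (x : Dir k m r → ZMod 2) : Cell k := fun i => x (.inl i)

/-- change of the cell in the direction `t` -/
def dc {k m r : ℕ} : Dir k m r → Cell k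
  | .inl i => Pi.single i 1
  | .inr _ => 0

/-- change of the group in the direction `t` -/
def dg {k m r : ℕ} : Dir k m r → (R k m r → ZMod 2)
  | .inl i => spread m r (Pi.single i 1)
  | .inr s => Pi.single s 1

lemma sum_spread {k : ℕ} (m r : ℕ) (u : Cell k) : ∑ j, spread m r u j = ∑ i, u i := by
  have h3 : (3 : ZMod 2) = 1 := by decide
  simp [Fintype.sum_sum_type, Fintype.sum_prod_type, spread, h3]

lemma sum_dg {k m r : ℕ} (t : Dir k m r) : ∑ j, dg t j = 1 := by
  rcases t with i | s
  · simp only [dg, sum_spread]
    simp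
  · simp only [dg]
    simp

/-- the neighbour of the odd vertex `y` in the direction `t` -/
def nbr {k m r : ℕ} (y : Cell k × Od k m r) (t : Dir k m r) : Cell k × Ev k m r :=
  (y.1 + dc t, ⟨y.2.1 + dg t, by
    have h := y.2.2
    have h' := sum_dg t
    simp only [Pi.add_apply, Finset.sum_add_distrib, h, h']
    decide⟩)

/-- translation of an odd vertex by a code word -/
def shift {k m r : ℕ} (c : Fin m → ZMod 2) (y : Cell k × Od k m r) : Cell k × Od k m r :=
  (y.1, ⟨y.2.1 + code k r c, by
    have h := y.2.2
    have h' : ∑ j, code k r c j = 0 := by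
      simp [Fintype.sum_sum_type, Fintype.sum_prod_type, code]
      left; decide
    simp only [Pi.add_apply, Finset.sum_add_distrib, h, h']
    decide⟩)

/-- labels: two vertices outside `A`, two vertices of `A` -/
abbrev Lab {V : Type} (A : Finset V) : Type :=
  ({v // v ∉ A} × {v // v ∉ A}) × ({v // v ∈ A} × {v // v ∈ A})

/-- the placement problem of the cube `Q_{4k+4m+r}`; the position `s` of the group `i` is `f i s` -/
def data {V S : Type} {k m r : ℕ} (A : Finset V) (adj : V → V → Prop) (f : Ev k m r → S → V) :
    Data (Cell k) (Ev k m r) S (Cell k × Od k m r) (Dir k m r) (Lab A) where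
  nb := nbr
  star p := insert p (univ.image fun i : Fin k => p + Pi.single i 1)
  cell y := y.1
  ok i s w := adj (f i s) w.1.1 ∧ adj (f i s) w.1.2 ∧ adj (f i s) w.2.1 ∧ adj (f i s) w.2.2

/-- the candidates for the odd vertex `y` -/
def cand {V S : Type} [Fintype V] {k m r : ℕ} (adj : V → V → Prop) (f : Ev k m r → S → V)
    (σ : Ev k m r → Cell k → S) (y : Cell k × Od k m r) : Finset V :=
  {v | ∀ t, adj (f (nbr y t).2 (σ (nbr y t).2 (nbr y t).1)) v}

end Pool.Agent.Lib.MP_33d9ce_co.Slack
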