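import Pool.Agent.Lib.MP_33d9ce_co.Slack.CubeDefs
import Pool.Agent.Lib.MP_33d9ce_co.Defs

/-!
# Spanning hypercubes, slack scheme: blocks of the cube, and the embedding
-/

set_option autoImplicit false

noncomputable section

open Classical Finset

namespace Pool.Agent.Lib.MP_33d9ce_co.Slack

variable {k m r : ℕ} {V S : Type} [Fintype V] [Fintype S]

theorem cubeB_shift_snd (c : Fin m → ZMod 2) (y : Cell k × Od k m r) (a : Fin 4) (i : Fin m) :
    (shift c y).2.1 (.inr (.inl (a, i))) = y.2.1 (.inr (.inl (a, i))) + c i := rfl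

theorem cubeB_shift_inj (y : Cell k × Od k m r) :
    Function.Injective fun c : Fin m → ZMod 2 => shift c y := by
  intro c c' h
  funext i
  have h1 := cubeB_shift_snd c y 0 i
  have h2 := cubeB_shift_snd c' y 0 i
  have h3 : shift c y = shift c' y := h
  rw [h3, h2] at h1
  exact (add_left_cancel h1).symm

theorem shift_card (y : Cell k × Od k m r) :
    (univ.image fun c : Fin m → ZMod 2 => shift c y).card = 2 ^ m := by
  rw [Finset.card_image_of_injective _ (cubeB_shift_inj y), Finset.card_univ]
  simp [ZMod.card]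

/-- a code direction -/
def cubeB_T (k m r : ℕ) (a : Fin 4) (i : Fin m) : Dir k m r := .inr (.inr (.inl (a, i)))

theorem cubeB_T_inj {a b : Fin 4} {i : Fin m} (h : cubeB_T k m r a i = cubeB_T k m r b i) :
    a = b := by
  unfold cubeB_T at h
  simpa using h

theorem cubeB_dg {t : Dir k m r} {a : Fin 4} {i : Fin m} (h : dg t (.inr (.inl (a, i))) ≠ 0) :
    t = cubeB_T k m r a i := by
  rcases t with j | s
  · exact absurd rfl h
  · have h0 : (Pi.single s 1 : R k m r → ZMod 2) (.inr (.inl (a, i))) ≠ 0 := h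
    unfold cubeB_T
    by_contra h1
    apply h0
    rw [Pi.single_eq_of_ne]
    intro h2
    apply h1
    rw [h2]

theorem shift_disj (y z z' : Cell k × Od k m r)
    (hz : z ∈ univ.image fun c : Fin m → ZMod 2 => shift c y)
    (hz' : z' ∈ univ.image fun c : Fin m → ZMod 2 => shift c y) (h : z ≠ z') (t t' : Dir k m r) :
    (nbr z t).2 ≠ (nbr z' t').2 := by
  rw [Finset.mem_image] at hz hz'
  obtain ⟨c, -, rfl⟩ := hz
  obtain ⟨c', -, rfl⟩ := hz'
  intro he
  have hcc : c ≠ c' := by
    rintro rfl
    exact h rfl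
  obtain ⟨i, hi⟩ := Function.ne_iff.mp hcc
  have h1 : ∀ a : Fin 4, t = cubeB_T k m r a i ∨ t' = cubeB_T k m r a i := by
    intro a
    have h2 : (nbr (shift c y) t).2.1 (.inr (.inl (a, i))) =
        (nbr (shift c' y) t').2.1 (.inr (.inl (a, i))) := by rw [he]
    have h3 : (nbr (shift c y) t).2.1 (.inr (.inl (a, i))) =
        y.2.1 (.inr (.inl (a, i))) + c i + dg t (.inr (.inl (a, i))) := rfl
    have h4 : (nbr (shift c' y) t').2.1 (.inr (.inl (a, i))) =
        y.2.1 (.inr (.inl (a, i))) + c' i + dg t' (.inr (.inl (a, i))) := rfl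
    rw [h3, h4] at h2
    by_contra h5
    push Not at h5
    have h6 : dg t (.inr (.inl (a, i))) = 0 := by
      by_contra h7
      exact h5.1 (cubeB_dg h7)
    have h7 : dg t' (.inr (.inl (a, i))) = 0 := by
      by_contra h8
      exact h5.2 (cubeB_dg h8)
    rw [h6, h7, add_zero, add_zero] at h2
    exact hi (add_left_cancel h2)
  have key : ∀ a b : Fin 4, a ≠ b → ∀ u : Dir k m r,
      u = cubeB_T k m r a i → u = cubeB_T k m r b i → False := by
    intro a b hab u h2 h3
    exact hab (cubeB_T_inj (h2.symm.trans h3))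
  rcases h1 0 with g0 | g0 <;> rcases h1 1 with g1 | g1 <;> rcases h1 2 with g2 | g2
  · exact key 0 1 (by decide) _ g0 g1
  · exact key 0 1 (by decide) _ g0 g1
  · exact key 0 2 (by decide) _ g0 g2
  · exact key 1 2 (by decide) _ g1 g2
  · exact key 1 2 (by decide) _ g1 g2
  · exact key 0 2 (by decide) _ g0 g2
  · exact key 0 1 (by decide) _ g0 g1
  · exact key 0 1 (by decide) _ g0 g1

theorem cubeB_shift_shift (c : Fin m → ZMod 2) (y : Cell k × Od k m r) :
    shift c (shift c y) = y := by
  apply Prod.ext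
  · rfl
  · apply Subtype.ext
    funext j
    show y.2.1 j + code k r c j + code k r c j = y.2.1 j
    rw [add_assoc, CharTwo.add_self_eq_zero, add_zero]

theorem count_shift (Q : Cell k × Od k m r → Prop)
    (h : ∀ y, ∃ z ∈ univ.image (fun c : Fin m → ZMod 2 => shift c y), Q z) :
    Fintype.card (Cell k × Od k m r) ≤
      2 ^ m * ({z | Q z} : Finset (Cell k × Od k m r)).card := by
  have h1 : (univ : Finset (Cell k × Od k m r)) ⊆
      ((univ : Finset (Fin m → ZMod 2)) ×ˢ ({z | Q z} : Finset (Cell k × Od k m r))).image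
        fun p => shift p.1 p.2 := by
    intro y _
    obtain ⟨z, hz, hQ⟩ := h y
    rw [Finset.mem_image] at hz
    obtain ⟨c, -, rfl⟩ := hz
    rw [Finset.mem_image]
    refine ⟨(c, shift c y), ?_, cubeB_shift_shift c y⟩
    rw [Finset.mem_product]
    exact ⟨Finset.mem_univ _, by simpa using hQ⟩
  have h2 := Finset.card_le_card h1
  rw [Finset.card_univ] at h2
  refine h2.trans (Finset.card_image_le.trans ?_)
  rw [Finset.card_product, Finset.card_univ]
  simp [ZMod.card]

theorem cubeB_grp_add (X : Dir k m r → ZMod 2) (t : Dir k m r) :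
    grp (X + Pi.single t 1) = grp X + dg t := by
  funext j
  rcases t with i | s
  · show (X (.inr j) + (Pi.single (Sum.inl i) 1 : Dir k m r → ZMod 2) (.inr j)) +
        spread m r (fun i' => X (.inl i') + (Pi.single (Sum.inl i) 1 : Dir k m r → ZMod 2)
          (.inl i')) j = (X (.inr j) + spread m r (fun i' => X (.inl i')) j) +
        spread m r (Pi.single i 1) j
    rw [Pi.single_eq_of_ne (by simp), add_zero]
    rcases j with ⟨a, i'⟩ | j
    · show X (.inr (.inl (a, i'))) + (X (.inl i') + (Pi.single (Sum.inl i) 1 : Dir k m r → ZMod 2)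
          (.inl i')) = (X (.inr (.inl (a, i'))) + X (.inl i')) + (Pi.single i 1 : Cell k) i'
      rw [add_assoc]
      congr 2
      by_cases hi : i' = i
      · subst hi
        simp
      · rw [Pi.single_eq_of_ne (by simpa using hi), Pi.single_eq_of_ne hi]
    · show X (.inr (.inr j)) + 0 = (X (.inr (.inr j)) + 0) + 0
      simp
  · show (X (.inr j) + (Pi.single (Sum.inr s) 1 : Dir k m r → ZMod 2) (.inr j)) +
        spread m r (fun i' => X (.inl i') + (Pi.single (Sum.inr s) 1 : Dir k m r → ZMod 2)
          (.inl i')) j = (X (.inr j) + spread m r (fun i' => X (.inl i')) j) +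
        (Pi.single s 1 : R k m r → ZMod 2) j
    have h1 : (fun i' => X (.inl i') + (Pi.single (Sum.inr s) 1 : Dir k m r → ZMod 2) (.inl i')) =
        fun i' => X (.inl i') := by
      funext i'
      rw [Pi.single_eq_of_ne (by simp), add_zero]
    have h2 : (Pi.single (Sum.inr s) 1 : Dir k m r → ZMod 2) (.inr j) =
        (Pi.single s 1 : R k m r → ZMod 2) j := by
      by_cases hj : j = s
      · subst hj
        simp
      · rw [Pi.single_eq_of_ne (by simpa using hj), Pi.single_eq_of_ne hj]
    rw [h1, h2]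
    ring

theorem cubeB_cel_add (X : Dir k m r → ZMod 2) (t : Dir k m r) :
    cel (X + Pi.single t 1) = cel X + dc t := by
  funext i'
  rcases t with i | s
  · show X (.inl i') + (Pi.single (Sum.inl i) 1 : Dir k m r → ZMod 2) (.inl i') =
      X (.inl i') + (Pi.single i 1 : Cell k) i'
    congr 1
    by_cases hi : i' = i
    · subst hi
      simp
    · rw [Pi.single_eq_of_ne (by simpa using hi), Pi.single_eq_of_ne hi]
  · show X (.inl i') + (Pi.single (Sum.inr s) 1 : Dir k m r → ZMod 2) (.inl i') = X (.inl i') + 0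
    rw [Pi.single_eq_of_ne (by simp)]

theorem cubeB_inj {X X' : Dir k m r → ZMod 2} (h1 : cel X = cel X') (h2 : grp X = grp X') :
    X = X' := by
  funext j
  rcases j with i | j
  · exact congrFun h1 i
  · have h3 := congrFun h2 j
    have h4 : X (.inr j) + spread m r (cel X) j = X' (.inr j) + spread m r (cel X') j := h3
    rw [h1] at h4
    exact add_right_cancel h4

theorem cubeB_one {a : ZMod 2} (h : a ≠ 0) : a = 1 := by
  revert a
  decide

/-- the embedding -/
def cubeB_F (f : Ev k m r → S → V) (σ : Ev k m r → Cell k → S) (g : Cell k × Od k m r → V)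
    (X : Dir k m r → ZMod 2) : V :=
  if h : ∑ j, grp X j = 0 then f ⟨grp X, h⟩ (σ ⟨grp X, h⟩ (cel X))
  else g (cel X, ⟨grp X, cubeB_one h⟩)

omit [Fintype V] [Fintype S] in
theorem cubeB_F_inj (f : Ev k m r → S → V) (hf : Function.Injective fun x : Ev k m r × S => f x.1 x.2)
    (σ : Ev k m r → Cell k → S) (hσ : ∀ i, Function.Injective (σ i))
    (g : Cell k × Od k m r → V) (hg : Function.Injective g)
    (h1 : ∀ y i p, g y ≠ f i (σ i p)) : Function.Injective (cubeB_F f σ g) := by
  intro X X' h
  unfold cubeB_F at h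
  by_cases e : ∑ j, grp X j = 0 <;> by_cases e' : ∑ j, grp X' j = 0
  · rw [dif_pos e, dif_pos e'] at h
    have h2 := @hf (⟨grp X, e⟩, σ ⟨grp X, e⟩ (cel X)) (⟨grp X', e'⟩, σ ⟨grp X', e'⟩ (cel X')) h
    have h3 : grp X = grp X' := congrArg (fun p => p.1.1) h2
    have h4 : σ ⟨grp X, e⟩ (cel X) = σ ⟨grp X', e'⟩ (cel X') := congrArg (fun p => p.2) h2
    have h5 : (⟨grp X', e'⟩ : Ev k m r) = ⟨grp X, e⟩ := Subtype.ext h3.symm
    rw [h5] at h4
    exact cubeB_inj (hσ _ h4) h3
  · rw [dif_pos e, dif_neg e'] at h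
    exact absurd h.symm (h1 _ _ _)
  · rw [dif_neg e, dif_pos e'] at h
    exact absurd h (h1 _ _ _)
  · rw [dif_neg e, dif_neg e'] at h
    have h2 := hg h
    have h3 : cel X = cel X' := congrArg (fun p => p.1) h2
    have h4 : grp X = grp X' := congrArg (fun p => p.2.1) h2
    exact cubeB_inj h3 h4

omit [Fintype V] [Fintype S] in
theorem cubeB_F_adj (G : SimpleGraph V) (f : Ev k m r → S → V)
    (σ : Ev k m r → Cell k → S) (g : Cell k × Od k m r → V)
    (h2 : ∀ y t, G.Adj (f (nbr y t).2 (σ (nbr y t).2 (nbr y t).1)) (g y))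
    (X : Dir k m r → ZMod 2) (t : Dir k m r) :
    G.Adj (cubeB_F f σ g X) (cubeB_F f σ g (X + Pi.single t 1)) := by
  have key : ∀ (X : Dir k m r → ZMod 2), ¬ ∑ j, grp X j = 0 →
      G.Adj (cubeB_F f σ g X) (cubeB_F f σ g (X + Pi.single t 1)) := by
    intro X e
    have e1 : ∑ j, grp (X + Pi.single t 1) j = 0 := by
      rw [cubeB_grp_add]
      simp only [Pi.add_apply, Finset.sum_add_distrib, sum_dg, cubeB_one e]
      decide
    unfold cubeB_F
    rw [dif_neg e, dif_pos e1]
    have h3 := h2 (cel X, ⟨grp X, cubeB_one e⟩) t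
    have h4 : (nbr (cel X, ⟨grp X, cubeB_one e⟩) t).2 = (⟨grp (X + Pi.single t 1), e1⟩ : Ev k m r) :=
      Subtype.ext (cubeB_grp_add X t).symm
    have h5 : (nbr (cel X, (⟨grp X, cubeB_one e⟩ : Od k m r)) t).1 = cel (X + Pi.single t 1) :=
      (cubeB_cel_add X t).symm
    rw [h4, h5] at h3
    exact h3.symm
  by_cases e : ∑ j, grp X j = 0
  · have e1 : ¬ ∑ j, grp (X + Pi.single t 1) j = 0 := by
      rw [cubeB_grp_add]
      simp only [Pi.add_apply, Finset.sum_add_distrib, sum_dg, e]
      decide
    have h3 := key _ e1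
    have h4 : X + Pi.single t 1 + Pi.single t 1 = X := by
      funext j
      rw [Pi.add_apply, Pi.add_apply, add_assoc, CharTwo.add_self_eq_zero, add_zero]
    rw [h4] at h3
    exact h3.symm
  · exact key X e

theorem contains {n : ℕ} (hn : n = 4 * k + 4 * m + r) (G : SimpleGraph V)
    (f : Ev k m r → S → V) (hf : Function.Injective fun x : Ev k m r × S => f x.1 x.2)
    (σ : Ev k m r → Cell k → S) (hσ : ∀ i, Function.Injective (σ i))
    (g : Cell k × Od k m r → V) (hg : Function.Injective g)
    (h1 : ∀ y i p, g y ≠ f i (σ i p))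
    (h2 : ∀ y t, G.Adj (f (nbr y t).2 (σ (nbr y t).2 (nbr y t).1)) (g y)) :
    ContainsCube n G := by
  have hcard : Fintype.card (Fin n) = Fintype.card (Dir k m r) := by
    simp only [Fintype.card_fin, Fintype.card_sum, Fintype.card_prod]
    omega
  have e : Fin n ≃ Dir k m r := Fintype.equivOfCardEq hcard
  set b : Bool → ZMod 2 := fun x => if x then 1 else 0 with hb
  have hbi : Function.Injective b := by
    intro x y h
    revert h
    cases x <;> cases y <;> simp [hb]
  refine ⟨fun x => cubeB_F f σ g (fun j => b (x (e.symm j))), ?_, ?_⟩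
  · intro x x' h
    have h3 := cubeB_F_inj f hf σ hσ g hg h1 h
    funext i
    have h4 := congrFun h3 (e i)
    simp only [Equiv.symm_apply_apply] at h4
    exact hbi h4
  · intro x x' h
    obtain ⟨i, hi, hu⟩ := h
    have h3 : (fun j => b (x' (e.symm j))) = (fun j => b (x (e.symm j))) + Pi.single (e i) 1 := by
      funext j
      by_cases hj : j = e i
      · subst hj
        simp only [Equiv.symm_apply_apply, Pi.add_apply, Pi.single_eq_same]
        revert hi
        rcases x i with _ | _ <;> rcases x' i with _ | _ <;> simp [hb] <;> decide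
      · rw [Pi.add_apply, Pi.single_eq_of_ne hj, add_zero]
        have h4 : x (e.symm j) = x' (e.symm j) := by
          by_contra h5
          have h6 := hu _ h5
          apply hj
          rw [← h6, Equiv.apply_symm_apply]
        rw [h4]
    beta_reduce
    rw [h3]
    exact cubeB_F_adj G f σ g h2 _ _

end Pool.Agent.Lib.MP_33d9ce_co.Slack
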