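import Pool.Agent.Lib.MP_33d9ce_co.Slack.Defs

/-!
# Spanning hypercubes, slack scheme: independence of the groups
-/

set_option autoImplicit false

noncomputable section

open Classical Finset

namespace Pool.Agent.Lib.MP_33d9ce_co.Slack

variable {P I S Y T W : Type} [Fintype P] [Fintype I] [Fintype S] [Fintype Y] [Fintype T] [Fintype W]

/-- **C.**  Coordinates in different groups are independent. -/
theorem cyl (ν : I → (P → S) → ℝ) (h1 : ∀ i, ∑ τ, ν i τ = 1) {J : Type} [Fintype J]
    (g : J → I) (hg : Function.Injective g) (c : J → P) (F : (J → S) → ℝ) :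
    ∑ σ : I → P → S, (∏ i, ν i (σ i)) * F (fun j => σ (g j) (c j)) =
      ∑ a : J → S, (∏ j, ∑ τ, (if τ (c j) = a j then ν (g j) τ else 0)) * F a := by
  -- the indicator of the event
  have hF : ∀ b : J → S, F b = ∑ a : J → S, (∏ j, if b j = a j then (1 : ℝ) else 0) * F a := by
    intro b
    rw [Finset.sum_eq_single b]
    · simp
    · intro a _ hab
      obtain ⟨j, hj⟩ := Function.ne_iff.mp hab
      rw [Finset.prod_eq_zero (Finset.mem_univ j) (if_neg (Ne.symm hj)), zero_mul]
    · intro h
      exact absurd (Finset.mem_univ b) h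
  -- the factors
  set φ : (J → S) → I → (P → S) → ℝ := fun a i τ =>
    ν i τ * ∏ j ∈ univ.filter (fun j => g j = i), (if τ (c j) = a j then (1 : ℝ) else 0) with hφ
  have key : ∀ a : J → S, ∑ σ : I → P → S, (∏ i, ν i (σ i)) *
      (∏ j, if σ (g j) (c j) = a j then (1 : ℝ) else 0) =
      ∏ j, ∑ τ, (if τ (c j) = a j then ν (g j) τ else 0) := by
    intro a
    have e1 : ∀ σ : I → P → S, (∏ i, ν i (σ i)) *
        (∏ j, if σ (g j) (c j) = a j then (1 : ℝ) else 0) = ∏ i, φ a i (σ i) := by
      intro σ
      rw [hφ, Finset.prod_mul_distrib]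
      congr 1
      rw [← Finset.prod_fiberwise (s := univ) (g := g)
        (f := fun j => if σ (g j) (c j) = a j then (1 : ℝ) else 0)]
      refine Finset.prod_congr rfl fun i _ => Finset.prod_congr rfl fun j hj => ?_
      rw [(Finset.mem_filter.mp hj).2]
    rw [Finset.sum_congr rfl fun σ _ => e1 σ]
    have e2 : ∑ σ : I → P → S, ∏ i, φ a i (σ i) = ∏ i, ∑ τ, φ a i τ := by
      rw [Finset.prod_univ_sum]
      rw [Fintype.piFinset_univ]
    rw [e2]
    symm
    refine Fintype.prod_of_injective g hg _ _ ?_ ?_
    · intro i hi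
      have : univ.filter (fun j => g j = i) = ∅ := by
        rw [Finset.filter_eq_empty_iff]
        intro j _ hj
        exact hi ⟨j, hj⟩
      rw [hφ]
      simp only [this, Finset.prod_empty, mul_one]
      exact h1 i
    · intro j
      have : univ.filter (fun j' => g j' = g j) = {j} := by
        ext j'
        simp only [Finset.mem_filter, Finset.mem_univ, true_and, Finset.mem_singleton]
        exact ⟨fun h => hg h, fun h => by rw [h]⟩
      rw [hφ]
      simp only [this, Finset.prod_singleton]
      refine Finset.sum_congr rfl fun τ _ => ?_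
      rw [mul_ite, mul_one, mul_zero]
  calc ∑ σ : I → P → S, (∏ i, ν i (σ i)) * F (fun j => σ (g j) (c j))
      = ∑ σ : I → P → S, ∑ a : J → S, ((∏ i, ν i (σ i)) *
          (∏ j, if σ (g j) (c j) = a j then (1 : ℝ) else 0)) * F a := by
        refine Finset.sum_congr rfl fun σ _ => ?_
        rw [hF, Finset.mul_sum]
        exact Finset.sum_congr rfl fun a _ => by ring
    _ = ∑ a : J → S, (∑ σ : I → P → S, (∏ i, ν i (σ i)) *
          (∏ j, if σ (g j) (c j) = a j then (1 : ℝ) else 0)) * F a := by
        rw [Finset.sum_comm]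
        exact Finset.sum_congr rfl fun a _ => by rw [Finset.sum_mul]
    _ = _ := Finset.sum_congr rfl fun a _ => by rw [key a]

end Pool.Agent.Lib.MP_33d9ce_co.Slack
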