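import Pool.Agent.Lib.MP_33d9ce_co.Slack.Defs

/-!
# Spanning hypercubes, slack scheme: mixtures of injections
-/

set_option autoImplicit false

noncomputable section

open Classical Finset

namespace Pool.Agent.Lib.MP_33d9ce_co.Slack

variable {P I S Y T W : Type} [Fintype P] [Fintype I] [Fintype S] [Fintype Y] [Fintype T] [Fintype W]

/-- **B.**  A nonnegative matrix with row sums 1 and column sums at most 1 is a mixture of injections. -/
theorem exists_inj_law (m : P → S → ℝ) (h0 : ∀ p s, 0 ≤ m p s) (h1 : ∀ p, ∑ s, m p s = 1)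
    (h2 : ∀ s, ∑ p, m p s ≤ 1) :
    ∃ ν : (P → S) → ℝ, (∀ τ, 0 ≤ ν τ) ∧ ∑ τ, ν τ = 1 ∧ (∀ τ, ν τ ≠ 0 → Function.Injective τ) ∧
      ∀ p s, ∑ τ, (if τ p = s then ν τ else 0) = m p s := by
  -- the number of rows
  have hPS : (Fintype.card P : ℝ) = ∑ s, ∑ p, m p s := by
    rw [Finset.sum_comm]
    simp [h1]
  have hcard : Fintype.card P ≤ Fintype.card S := by
    have h3 : ∑ s, ∑ p, m p s ≤ ∑ _s : S, (1 : ℝ) := Finset.sum_le_sum fun s _ => h2 s
    rw [← hPS] at h3
    simp only [Finset.sum_const, Finset.card_univ, nsmul_eq_mul, mul_one] at h3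
    exact_mod_cast h3
  obtain ⟨e⟩ := Function.Embedding.nonempty_of_card_le hcard
  set A : Finset S := univ.map e with hA
  set c : S → ℝ := fun s => 1 - ∑ p, m p s with hc
  have hc0 : ∀ s, 0 ≤ c s := fun s => by
    have := h2 s
    rw [hc]
    linarith
  have hAc : (Aᶜ.card : ℝ) = ∑ s, c s := by
    have h3 : Aᶜ.card = Fintype.card S - Fintype.card P := by
      rw [Finset.card_compl, hA, Finset.card_map, Finset.card_univ]
    rw [h3, Nat.cast_sub hcard, hPS, hc, Finset.sum_sub_distrib]
    simp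
  set M : Matrix S S ℝ := fun r s =>
    if h : ∃ p, e p = r then m h.choose s else c s / (Aᶜ.card : ℝ) with hM
  have hMe : ∀ p s, M (e p) s = m p s := by
    intro p s
    have h3 : ∃ q, e q = e p := ⟨p, rfl⟩
    rw [hM]
    simp only [h3, dif_pos]
    rw [e.injective h3.choose_spec]
  have hMr : ∀ r ∈ Aᶜ, ∀ s, M r s = c s / (Aᶜ.card : ℝ) := by
    intro r hr s
    have h3 : ¬ ∃ q, e q = r := by
      rintro ⟨q, hq⟩
      rw [Finset.mem_compl, hA, Finset.mem_map] at hr
      exact hr ⟨q, Finset.mem_univ q, hq⟩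
    rw [hM]
    simp only [h3, dif_neg, not_false_eq_true]
  have hcase : ∀ r, (∃ p, e p = r) ∨ r ∈ Aᶜ := by
    intro r
    by_cases h : ∃ p, e p = r
    · exact Or.inl h
    · right
      rw [Finset.mem_compl, hA, Finset.mem_map]
      rintro ⟨q, _, hq⟩
      exact h ⟨q, hq⟩
  have hds : M ∈ doublyStochastic ℝ S := by
    rw [mem_doublyStochastic_iff_sum]
    refine ⟨fun r s => ?_, fun r => ?_, fun s => ?_⟩
    · rcases hcase r with ⟨p, rfl⟩ | hr
      · rw [hMe]
        exact h0 p s
      · rw [hMr r hr]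
        exact div_nonneg (hc0 s) (Nat.cast_nonneg _)
    · rcases hcase r with ⟨p, rfl⟩ | hr
      · simp only [hMe, h1]
      · simp only [hMr r hr]
        rw [← Finset.sum_div, ← hAc]
        have : (0 : ℝ) < Aᶜ.card := by exact_mod_cast Finset.card_pos.mpr ⟨r, hr⟩
        exact div_self this.ne'
    · have h3 : ∑ r, M r s = ∑ r ∈ A, M r s + ∑ r ∈ Aᶜ, M r s :=
        (Finset.sum_add_sum_compl A _).symm
      have h4 : ∑ r ∈ A, M r s = ∑ p, m p s := by
        rw [hA, Finset.sum_map]
        exact Finset.sum_congr rfl fun p _ => hMe p s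
      have h5 : ∑ r ∈ Aᶜ, M r s = c s := by
        rw [Finset.sum_congr rfl fun r hr => hMr r hr s, Finset.sum_const, nsmul_eq_mul]
        rcases Nat.eq_zero_or_pos Aᶜ.card with h6 | h6
        · have h7 : ∑ s, c s = 0 := by rw [← hAc, h6, Nat.cast_zero]
          have h8 := (Finset.sum_eq_zero_iff_of_nonneg fun s _ => hc0 s).mp h7 s (Finset.mem_univ s)
          rw [h8, h6]
          simp
        · have : (0 : ℝ) < Aᶜ.card := by exact_mod_cast h6
          field_simp
      rw [h3, h4, h5, hc]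
      ring
  obtain ⟨w, hw0, hw1, hwM⟩ := exists_eq_sum_perm_of_mem_doublyStochastic hds
  refine ⟨fun τ => ∑ σ : Equiv.Perm S, if (fun p => σ (e p)) = τ then w σ else 0, ?_, ?_, ?_, ?_⟩
  · intro τ
    exact Finset.sum_nonneg fun σ _ => by split_ifs <;> [exact hw0 σ; exact le_rfl]
  · rw [Finset.sum_comm]
    simp only [Finset.sum_ite_eq, Finset.mem_univ, if_true]
    exact hw1
  · intro τ hτ
    by_contra hinj
    apply hτ
    refine Finset.sum_eq_zero fun σ _ => ?_
    rw [if_neg]
    rintro rfl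
    exact hinj (σ.injective.comp e.injective)
  · intro p s
    have h3 : ∀ τ : P → S, (if τ p = s then
        ∑ σ : Equiv.Perm S, (if (fun p => σ (e p)) = τ then w σ else 0) else 0) =
        ∑ σ : Equiv.Perm S, if (fun p => σ (e p)) = τ then (if τ p = s then w σ else 0) else 0 := by
      intro τ
      by_cases h : τ p = s
      · simp only [h, if_true]
      · simp only [h, if_false, ite_self, Finset.sum_const_zero]
    rw [Finset.sum_congr rfl fun τ _ => h3 τ, Finset.sum_comm]
    simp only [Finset.sum_ite_eq, Finset.mem_univ, if_true]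
    have h4 : M (e p) s = m p s := hMe p s
    rw [← h4, ← hwM]
    rw [Matrix.sum_apply]
    refine Finset.sum_congr rfl fun σ _ => ?_
    rw [Matrix.smul_apply, smul_eq_mul, Equiv.Perm.permMatrix, PEquiv.toMatrix_apply]
    simp [Equiv.toPEquiv_apply, eq_comm]

end Pool.Agent.Lib.MP_33d9ce_co.Slack
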