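import Pool.Agent.Lib.MP_33d9ce_co.Slack.CubeDefs

/-!
# Spanning hypercubes, slack scheme: cardinalities and standing hypotheses for the cube
-/

set_option autoImplicit false

noncomputable section

open Classical Finset

namespace Pool.Agent.Lib.MP_33d9ce_co.Slack

variable {k m r : ℕ} {V S : Type} [Fintype V] [Fintype S]

theorem card_Cell (k : ℕ) : Fintype.card (Cell k) = 2 ^ k := by
  simp [Cell, ZMod.card]

private lemma CubeA_sum {ι : Type} [Fintype ι] (j : ι) (h : ι → ZMod 2) (b : ZMod 2) :
    ∑ i, (h + Pi.single j b : ι → ZMod 2) i = ∑ i, h i + b := by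
  simp [Finset.sum_add_distrib]

private lemma CubeA_inv {ι : Type} (j : ι) (h : ι → ZMod 2) (a b : ZMod 2) :
    (h + Pi.single j (b - a) + Pi.single j (a - b) : ι → ZMod 2) = h := by
  rw [add_assoc, ← Pi.single_add]
  simp

private lemma CubeA_fiber {ι : Type} [Fintype ι] (j : ι) (a : ZMod 2) :
    2 * Nat.card {h : ι → ZMod 2 // ∑ i, h i = a} = 2 ^ Nat.card ι := by
  have h1 : ∀ a b : ZMod 2, Nat.card {h : ι → ZMod 2 // ∑ i, h i = a} =
      Nat.card {h : ι → ZMod 2 // ∑ i, h i = b} := by
    intro a b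
    exact Nat.card_congr
      { toFun := fun h => ⟨h.1 + Pi.single j (b - a), by rw [CubeA_sum, h.2]; ring⟩
        invFun := fun h => ⟨h.1 + Pi.single j (a - b), by rw [CubeA_sum, h.2]; ring⟩
        left_inv := fun h => Subtype.ext (CubeA_inv j h.1 a b)
        right_inv := fun h => Subtype.ext (CubeA_inv j h.1 b a) }
  have h2 : Nat.card (ι → ZMod 2) =
      ∑ b : ZMod 2, Nat.card {h : ι → ZMod 2 // ∑ i, h i = b} := by
    rw [← Nat.card_sigma]
    exact (Nat.card_congr (Equiv.sigmaFiberEquiv (fun h : ι → ZMod 2 => ∑ i, h i))).symm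
  have h3 : ∑ b : ZMod 2, Nat.card {h : ι → ZMod 2 // ∑ i, h i = b} =
      2 * Nat.card {h : ι → ZMod 2 // ∑ i, h i = a} := by
    rw [Finset.sum_congr rfl fun b _ => h1 b a]
    simp [ZMod.card]
  rw [← h3, ← h2, Nat.card_fun, Nat.card_zmod]

private lemma CubeA_R (k m r : ℕ) : Fintype.card (R k m r) = 3 * k + 4 * m + r := by
  simp [R]
  ring

theorem card_Ev (k m r : ℕ) (h : 0 < 3 * k + 4 * m + r) :
    2 * Fintype.card (Ev k m r) = 2 ^ (3 * k + 4 * m + r) := by
  have h1 : 0 < Fintype.card (R k m r) := by rw [CubeA_R]; exact h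
  obtain ⟨j⟩ := Fintype.card_pos_iff.mp h1
  have := CubeA_fiber j 0
  rw [Nat.card_eq_fintype_card (α := R k m r), CubeA_R] at this
  rw [← this, ← Nat.card_eq_fintype_card]

theorem card_Od (k m r : ℕ) (h : 0 < 3 * k + 4 * m + r) :
    2 * Fintype.card (Od k m r) = 2 ^ (3 * k + 4 * m + r) := by
  have h1 : 0 < Fintype.card (R k m r) := by rw [CubeA_R]; exact h
  obtain ⟨j⟩ := Fintype.card_pos_iff.mp h1
  have := CubeA_fiber j 1
  rw [Nat.card_eq_fintype_card (α := R k m r), CubeA_R] at this
  rw [← this, ← Nat.card_eq_fintype_card]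

theorem card_Dir (k m r : ℕ) : Fintype.card (Dir k m r) = 4 * k + 4 * m + r := by
  have := CubeA_R k m r
  rw [show Fintype.card (Dir k m r) = Fintype.card (Fin k) + Fintype.card (R k m r) from
    Fintype.card_sum, this, Fintype.card_fin]
  ring

private lemma CubeA_dg_inj : Function.Injective (dg (k := k) (m := m) (r := r)) := by
  have h01 : (1 : ZMod 2) ≠ 0 := by decide
  have key : ∀ (i : Fin k) (s : R k m r), dg (.inl i) ≠ dg (k := k) (m := m) (r := r) (.inr s) := by
    intro i s h
    have h0 := congrFun h (.inl (0, i))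
    have h1 := congrFun h (.inl (1, i))
    simp only [dg, spread, Pi.single_eq_same] at h0 h1
    have e0 : s = .inl (0, i) := by
      by_contra hne
      rw [Pi.single_eq_of_ne (Ne.symm hne)] at h0
      exact h01 h0
    have e1 : s = .inl (1, i) := by
      by_contra hne
      rw [Pi.single_eq_of_ne (Ne.symm hne)] at h1
      exact h01 h1
    rw [e0] at e1
    simp at e1
  intro t t' h
  rcases t with i | s <;> rcases t' with i' | s'
  · have h0 := congrFun h (.inl (0, i))
    simp only [dg, spread, Pi.single_eq_same] at h0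
    have : i = i' := by
      by_contra hne
      rw [Pi.single_eq_of_ne hne] at h0
      exact h01 h0
    rw [this]
  · exact absurd h (key i s')
  · exact absurd h.symm (key i' s)
  · have h0 := congrFun h s
    simp only [dg, Pi.single_eq_same] at h0
    have : s = s' := by
      by_contra hne
      rw [Pi.single_eq_of_ne hne] at h0
      exact h01 h0
    rw [this]

private lemma CubeA_two (c : Cell k) : c + c = 0 := by
  funext i
  have : ∀ a : ZMod 2, a + a = 0 := by decide
  exact this (c i)

theorem good (A : Finset V) (adj : V → V → Prop) (f : Ev k m r → S → V) {η : ℝ} (h0 : 0 ≤ η)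
    (h1 : 4 * η < 1)
    (hf : ∀ v i, (({s | ¬ adj (f i s) v} : Finset S).card : ℝ) ≤ η * Fintype.card (Cell k))
    (room : (Fintype.card (Cell k) : ℝ) + (k + 1) * (4 * η * Fintype.card (Cell k)) ≤
      Fintype.card S) (hW : Nonempty (Lab A)) (hk : 0 < k) : (data A adj f).Good (4 * η) := by
  refine ⟨?_, ?_, ?_, ?_, ?_, ?_, h1, ?_, hW⟩
  · intro y t t' h
    have h2 : (nbr y t).2 = (nbr y t').2 := h
    have h3 := congrArg Subtype.val h2
    simp only [nbr] at h3
    exact CubeA_dg_inj (add_left_cancel h3)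
  · intro y t
    show y.1 ∈ insert (y.1 + dc t) (univ.image fun i : Fin k => y.1 + dc t + Pi.single i 1)
    rcases t with i | s
    · refine Finset.mem_insert_of_mem (Finset.mem_image.mpr ⟨i, Finset.mem_univ _, ?_⟩)
      simp only [dc]
      rw [add_assoc, CubeA_two, add_zero]
    · refine Finset.mem_insert.mpr (Or.inl ?_)
      simp only [dc, add_zero]
  · intro i w
    have hsub : ({s | ¬ (data A adj f).ok i s w} : Finset S) ⊆
        (({s | ¬ adj (f i s) w.1.1} : Finset S) ∪ ({s | ¬ adj (f i s) w.1.2} : Finset S)) ∪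
        (({s | ¬ adj (f i s) w.2.1} : Finset S) ∪ ({s | ¬ adj (f i s) w.2.2} : Finset S)) := by
      intro s hs
      simp only [Finset.mem_filter, Finset.mem_univ, true_and, Finset.mem_union] at hs ⊢
      by_contra hcon
      push Not at hcon
      exact hs ⟨hcon.1.1, hcon.1.2, hcon.2.1, hcon.2.2⟩
    have hc := (Finset.card_le_card hsub).trans ((Finset.card_union_le _ _).trans
      (add_le_add (Finset.card_union_le _ _) (Finset.card_union_le _ _)))
    have hc' : (({s | ¬ (data A adj f).ok i s w} : Finset S).card : ℝ) ≤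
        ((({s | ¬ adj (f i s) w.1.1} : Finset S).card : ℝ) +
          (({s | ¬ adj (f i s) w.1.2} : Finset S).card : ℝ)) +
        ((({s | ¬ adj (f i s) w.2.1} : Finset S).card : ℝ) +
          (({s | ¬ adj (f i s) w.2.2} : Finset S).card : ℝ)) := by exact_mod_cast hc
    have e1 := hf w.1.1 i
    have e2 := hf w.1.2 i
    have e3 := hf w.2.1 i
    have e4 := hf w.2.2 i
    linarith
  · intro p
    have hc : ((data A adj f).star p).card ≤ k + 1 := by
      show (insert p (univ.image fun i : Fin k => p + Pi.single i 1)).card ≤ k + 1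
      refine (Finset.card_insert_le _ _).trans ?_
      refine Nat.add_le_add_right (Finset.card_image_le.trans ?_) 1
      simp
    have hc' : (((data A adj f).star p).card : ℝ) ≤ k + 1 := by exact_mod_cast hc
    refine le_trans ?_ room
    refine add_le_add le_rfl (mul_le_mul_of_nonneg_right hc' ?_)
    positivity
  · exact ⟨0⟩
  · linarith
  · exact ⟨.inl ⟨0, hk⟩⟩

theorem card_comp (A : Finset V) (adj : V → V → Prop) (f : Ev k m r → S → V)
    (σ : Ev k m r → Cell k → S) (y : Cell k × Od k m r) :
    ((data A adj f).comp y ((data A adj f).im σ y)).card =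
      ((cand adj f σ y).filter (· ∉ A)).card ^ 2 * ((cand adj f σ y).filter (· ∈ A)).card ^ 2 := by
  set C := cand adj f σ y with hC
  have hcard : ∀ (p : V → Prop) (i1 : Fintype {v // p v}) (i2 : DecidablePred p),
      ((@Finset.univ _ i1).filter (fun v : {v // p v} => v.1 ∈ C)).card =
      (@Finset.filter _ p i2 C).card := by
    intro p i1 i2
    refine Finset.card_bij (fun v _ => v.1) ?_ ?_ ?_
    · intro v hv
      exact Finset.mem_filter.mpr ⟨(Finset.mem_filter.mp hv).2, v.2⟩
    · intro v _ v' _ h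
      exact Subtype.ext h
    · intro v hv
      obtain ⟨hv1, hv2⟩ := Finset.mem_filter.mp hv
      exact ⟨⟨v, hv2⟩, Finset.mem_filter.mpr ⟨Finset.mem_univ _, hv1⟩, rfl⟩
  have hset : (data A adj f).comp y ((data A adj f).im σ y) =
      ((univ.filter (fun v : {v // v ∉ A} => v.1 ∈ C)) ×ˢ
        (univ.filter (fun v : {v // v ∉ A} => v.1 ∈ C))) ×ˢ
      ((univ.filter (fun v : {v // v ∈ A} => v.1 ∈ C)) ×ˢ
        (univ.filter (fun v : {v // v ∈ A} => v.1 ∈ C))) := by
    ext w
    simp only [Data.comp, Data.im, data, hC, cand, Finset.mem_filter, Finset.mem_univ, true_and,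
      Finset.mem_product]
    constructor
    · intro h
      exact ⟨⟨fun t => (h t).1, fun t => (h t).2.1⟩, ⟨fun t => (h t).2.2.1, fun t => (h t).2.2.2⟩⟩
    · rintro ⟨⟨g1, g2⟩, ⟨g3, g4⟩⟩ t
      exact ⟨g1 t, g2 t, g3 t, g4 t⟩
  rw [hset, Finset.card_product, Finset.card_product, Finset.card_product, hcard (· ∉ A),
    hcard (· ∈ A)]
  ring

end Pool.Agent.Lib.MP_33d9ce_co.Slack
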