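import Pool.Agent.Lib.MP_33d9ce_co.Slack.Defs

/-!
# Spanning hypercubes, slack scheme: a fair array
-/

set_option autoImplicit false

noncomputable section

open Classical Finset

namespace Pool.Agent.Lib.MP_33d9ce_co.Slack

variable {P I S Y T W : Type} [Fintype P] [Fintype I] [Fintype S] [Fintype Y] [Fintype T] [Fintype W]

/-- exponential moment of a number of hits, all coordinates being independent and uniform -/
private theorem array_moment {A S : Type} [Fintype A] [Fintype S] [Nonempty A] (p : A → S → Prop)
    (h : ℕ) (hh : ((univ : Finset (A × S)).filter fun x => p x.1 x.2).card ≤ h) :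
    ∑ g : S → A, (2 : ℝ) ^ ((univ : Finset S).filter fun s => p (g s) s).card ≤
      (Fintype.card A : ℝ) ^ Fintype.card S * Real.exp (h / Fintype.card A) := by
  have hn : (0 : ℝ) < Fintype.card A := by exact_mod_cast Fintype.card_pos
  have e1 : ∀ g : S → A, (2 : ℝ) ^ ((univ : Finset S).filter fun s => p (g s) s).card =
      ∏ s, (if p (g s) s then (2 : ℝ) else 1) := by
    intro g
    rw [Finset.prod_ite]
    simp
  have e2 : ∑ g : S → A, ∏ s, (if p (g s) s then (2 : ℝ) else 1) =
      ∏ s, ∑ a : A, (if p a s then (2 : ℝ) else 1) := by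
    rw [Finset.prod_univ_sum (fun _ => (univ : Finset A))
      (fun s a => if p a s then (2 : ℝ) else 1), Fintype.piFinset_univ]
  have e3 : ∀ s, ∑ a : A, (if p a s then (2 : ℝ) else 1) =
      Fintype.card A + ((univ : Finset A).filter fun a => p a s).card := by
    intro s
    have : ∀ a : A, (if p a s then (2 : ℝ) else 1) = 1 + if p a s then 1 else 0 := by
      intro a
      split_ifs <;> norm_num
    simp only [this, Finset.sum_add_distrib, Finset.sum_boole]
    simp
  have e4 : ∀ s, (Fintype.card A : ℝ) + ((univ : Finset A).filter fun a => p a s).card ≤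
      Fintype.card A * Real.exp (((univ : Finset A).filter fun a => p a s).card /
        Fintype.card A) := by
    intro s
    have h1 := Real.add_one_le_exp
      ((((univ : Finset A).filter fun a => p a s).card : ℝ) / Fintype.card A)
    have h2 := mul_le_mul_of_nonneg_left h1 hn.le
    refine le_trans (le_of_eq ?_) h2
    field_simp
    ring
  have e5 : ∑ s, (((univ : Finset A).filter fun a => p a s).card : ℝ) ≤ h := by
    have : ∑ s, ((univ : Finset A).filter fun a => p a s).card =
        ((univ : Finset (A × S)).filter fun x => p x.1 x.2).card := by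
      simp only [Finset.card_filter]
      rw [← Finset.univ_product_univ, Finset.sum_product_right]
    exact_mod_cast this.trans_le hh
  simp only [e1]
  rw [e2]
  calc ∏ s, ∑ a : A, (if p a s then (2 : ℝ) else 1)
      ≤ ∏ s, (Fintype.card A * Real.exp (((univ : Finset A).filter fun a => p a s).card /
        Fintype.card A)) := by
        refine Finset.prod_le_prod (fun s _ => ?_) (fun s _ => ?_)
        · exact Finset.sum_nonneg fun a _ => by split_ifs <;> norm_num
        · rw [e3]
          exact e4 s
    _ = (Fintype.card A : ℝ) ^ Fintype.card S *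
        Real.exp ((∑ s, (((univ : Finset A).filter fun a => p a s).card : ℝ)) /
          Fintype.card A) := by
        rw [Finset.prod_mul_distrib, Finset.prod_const, Finset.card_univ, ← Real.exp_sum,
          Finset.sum_div]
    _ ≤ _ := by
        refine mul_le_mul_of_nonneg_left (Real.exp_le_exp.2 ?_) (by positivity)
        gcongr

/-- the number of choices for which there are more than `q` hits -/
private theorem array_bad {A S : Type} [Fintype A] [Fintype S] [Nonempty A] (p : A → S → Prop)
    (h : ℕ) (hh : ((univ : Finset (A × S)).filter fun x => p x.1 x.2).card ≤ h) (q : ℝ)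
    (hq : 2 * (h : ℝ) ≤ q * Fintype.card A) :
    (((univ : Finset (S → A)).filter fun g =>
      q < (((univ : Finset S).filter fun s => p (g s) s).card : ℝ)).card : ℝ) ≤
      (Fintype.card A : ℝ) ^ Fintype.card S * Real.exp (-(q / 6)) := by
  have hn : (0 : ℝ) < Fintype.card A := by exact_mod_cast Fintype.card_pos
  have hq0 : 0 ≤ q := by
    by_contra hneg
    have h1 : (0 : ℝ) ≤ 2 * h := by positivity
    have : q * Fintype.card A < 0 := mul_neg_of_neg_of_pos (not_le.1 hneg) hn
    linarith
  have h0 := array_moment p h hh
  set B := (univ : Finset (S → A)).filter fun g =>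
      q < (((univ : Finset S).filter fun s => p (g s) s).card : ℝ) with hB
  have h1 : (B.card : ℝ) * Real.exp (q * Real.log 2) ≤
      ∑ g : S → A, (2 : ℝ) ^ ((univ : Finset S).filter fun s => p (g s) s).card := by
    calc (B.card : ℝ) * Real.exp (q * Real.log 2) = ∑ g ∈ B, Real.exp (q * Real.log 2) := by
          rw [Finset.sum_const, nsmul_eq_mul]
      _ ≤ ∑ g ∈ B, (2 : ℝ) ^ ((univ : Finset S).filter fun s => p (g s) s).card := by
          refine Finset.sum_le_sum fun g hg => ?_
          have h2 : q < (((univ : Finset S).filter fun s => p (g s) s).card : ℝ) :=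
            (Finset.mem_filter.1 hg).2
          have h3 : (2 : ℝ) ^ ((univ : Finset S).filter fun s => p (g s) s).card =
              Real.exp ((((univ : Finset S).filter fun s => p (g s) s).card : ℝ) *
                Real.log 2) := by
            rw [← Real.rpow_natCast, Real.rpow_def_of_pos (by norm_num), mul_comm]
          rw [h3]
          refine Real.exp_le_exp.2 ?_
          exact mul_le_mul_of_nonneg_right h2.le (Real.log_nonneg (by norm_num))
      _ ≤ _ := Finset.sum_le_sum_of_subset_of_nonneg (Finset.subset_univ _)
          fun g _ _ => by positivity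
  have h2 : (h : ℝ) / Fintype.card A ≤ q / 2 := by
    rw [div_le_iff₀ hn]
    linarith
  have h3 : (B.card : ℝ) * Real.exp (q * Real.log 2) ≤
      (Fintype.card A : ℝ) ^ Fintype.card S * Real.exp (q / 2) :=
    (h1.trans h0).trans (mul_le_mul_of_nonneg_left (Real.exp_le_exp.2 h2) (by positivity))
  have h4 : Real.exp (q / 2) = Real.exp (q / 2 - q * Real.log 2) * Real.exp (q * Real.log 2) := by
    rw [← Real.exp_add]
    ring_nf
  rw [h4, ← mul_assoc] at h3
  have h5 := le_of_mul_le_mul_right h3 (Real.exp_pos _)
  refine h5.trans (mul_le_mul_of_nonneg_left (Real.exp_le_exp.2 ?_) (by positivity))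
  have h6 := Real.log_two_gt_d9
  nlinarith

/-- **F.**  Columns `I`, rows `S`; a row is shifted by a random amount (Chernoff with `2 ^ X`). -/
theorem exists_array {V : Type} [Fintype V] (nadj : V → V → Prop) (h : ℕ)
    (hh : ∀ v, ({a | nadj a v} : Finset V).card ≤ h) [Nonempty I]
    (hc : Fintype.card I * Fintype.card S ≤ Fintype.card V) (q : ℝ)
    (hm : 2 * (h : ℝ) ≤ q * Fintype.card I)
    (hp : (Fintype.card V : ℝ) * Fintype.card I * Real.exp (-(q / 6)) < 1) :
    ∃ f : I → S → V, Function.Injective (fun x : I × S => f x.1 x.2) ∧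
      ∀ v i, (({s | nadj (f i s) v} : Finset S).card : ℝ) ≤ q := by
  have hn0 : Fintype.card I ≠ 0 := Fintype.card_ne_zero
  have hNZ : NeZero (Fintype.card I) := ⟨hn0⟩
  obtain ⟨f0⟩ : Nonempty (I × S ↪ V) :=
    Function.Embedding.nonempty_of_card_le (by rw [Fintype.card_prod]; exact hc)
  let e : I ≃ ZMod (Fintype.card I) := Fintype.equivOfCardEq (by rw [ZMod.card])
  -- the array with shifts `g`
  let F : (S → ZMod (Fintype.card I)) → I → S → V := fun g i s => f0 (e.symm (e i + g s), s)
  have hinj : ∀ g, Function.Injective (fun x : I × S => F g x.1 x.2) := by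
    rintro g ⟨i, s⟩ ⟨i', s'⟩ hx
    have h1 := f0.injective hx
    simp only [Prod.mk.injEq, EmbeddingLike.apply_eq_iff_eq] at h1
    obtain ⟨h1, rfl⟩ := h1
    rw [add_left_inj] at h1
    rw [e.injective h1]
  have hbad : ∀ v i, (((univ : Finset (S → ZMod (Fintype.card I))).filter fun g =>
      q < (({s | nadj (F g i s) v} : Finset S).card : ℝ)).card : ℝ) ≤
      (Fintype.card I : ℝ) ^ Fintype.card S * Real.exp (-(q / 6)) := by
    intro v i
    have h1 : ((univ : Finset (ZMod (Fintype.card I) × S)).filter fun x =>
        nadj (f0 (e.symm (e i + x.1), x.2)) v).card ≤ h := by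
      refine le_trans (Finset.card_le_card_of_injOn
        (fun x => f0 (e.symm (e i + x.1), x.2)) ?_ ?_) (hh v)
      · intro x hx
        simpa using hx
      · rintro ⟨a, s⟩ - ⟨a', s'⟩ - hx
        have h2 := f0.injective hx
        simp only [Prod.mk.injEq, EmbeddingLike.apply_eq_iff_eq] at h2
        obtain ⟨h2, rfl⟩ := h2
        rw [add_right_inj] at h2
        rw [h2]
    have h2 := array_bad (A := ZMod (Fintype.card I)) (S := S)
      (fun a s => nadj (f0 (e.symm (e i + a), s)) v) h h1 q (by rw [ZMod.card]; exact hm)
    rw [ZMod.card] at h2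
    exact h2
  by_contra hcon
  push Not at hcon
  have hcov : (univ : Finset (S → ZMod (Fintype.card I))) ⊆
      (univ : Finset (V × I)).biUnion fun x =>
        (univ : Finset (S → ZMod (Fintype.card I))).filter fun g =>
          q < (({s | nadj (F g x.2 s) x.1} : Finset S).card : ℝ) := by
    intro g _
    obtain ⟨v, i, hvi⟩ := hcon (F g) (hinj g)
    rw [Finset.mem_biUnion]
    exact ⟨(v, i), Finset.mem_univ _, Finset.mem_filter.2 ⟨Finset.mem_univ _, hvi⟩⟩
  have hcard := (Finset.card_le_card hcov).trans Finset.card_biUnion_le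
  rw [Finset.card_univ, Fintype.card_fun, ZMod.card] at hcard
  have hcard' : ((Fintype.card I : ℝ) ^ Fintype.card S) ≤
      ∑ x : V × I, (((univ : Finset (S → ZMod (Fintype.card I))).filter fun g =>
          q < (({s | nadj (F g x.2 s) x.1} : Finset S).card : ℝ)).card : ℝ) := by
    exact_mod_cast hcard
  have hsum : ∑ x : V × I, (((univ : Finset (S → ZMod (Fintype.card I))).filter fun g =>
          q < (({s | nadj (F g x.2 s) x.1} : Finset S).card : ℝ)).card : ℝ) ≤
      ((Fintype.card V : ℝ) * Fintype.card I) *
        ((Fintype.card I : ℝ) ^ Fintype.card S * Real.exp (-(q / 6))) := by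
    refine (Finset.sum_le_sum fun x _ => hbad x.1 x.2).trans (le_of_eq ?_)
    rw [Finset.sum_const, nsmul_eq_mul, Finset.card_univ, Fintype.card_prod]
    push_cast
    ring
  have hpos : (0 : ℝ) < (Fintype.card I : ℝ) ^ Fintype.card S := by positivity
  nlinarith [hcard'.trans hsum, mul_lt_mul_of_pos_right hp hpos]

end Pool.Agent.Lib.MP_33d9ce_co.Slack
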