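import Pool.Agent.Lib.MP_33d9ce_co.Slack.Defs

/-!
# Spanning hypercubes, slack scheme: functions of disjoint sets of labels
-/

set_option autoImplicit false

noncomputable section

open Classical Finset

namespace Pool.Agent.Lib.MP_33d9ce_co.Slack

variable {P I S Y T W : Type} [Fintype P] [Fintype I] [Fintype S] [Fintype Y] [Fintype T] [Fintype W]

namespace Data

variable (D : Data P I S Y T W) {θ : ℝ} {μ : (P → W) → I → (P → S) → ℝ}

/-- functions of disjoint sets of labels are uncorrelated (swap trick) -/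
theorem avg_mul (A : Finset P) (F G : (P → W) → ℝ)
    (hF : ∀ ω ω', (∀ p ∈ A, ω p = ω' p) → F ω = F ω')
    (hG : ∀ ω ω', (∀ p, p ∉ A → ω p = ω' p) → G ω = G ω') :
    ((Fintype.card W : ℝ) ^ Fintype.card P) * ∑ ω : P → W, F ω * G ω =
      (∑ ω, F ω) * ∑ ω, G ω := by
  have hpp : ∀ a b : P → W, A.piecewise (A.piecewise a b) (A.piecewise b a) = a := by
    intro a b
    funext p
    by_cases hp : p ∈ A <;> simp [hp]
  let e : (P → W) × (P → W) ≃ (P → W) × (P → W) :=
    { toFun := fun x => (A.piecewise x.1 x.2, A.piecewise x.2 x.1)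
      invFun := fun x => (A.piecewise x.1 x.2, A.piecewise x.2 x.1)
      left_inv := fun x => Prod.ext (hpp x.1 x.2) (hpp x.2 x.1)
      right_inv := fun x => Prod.ext (hpp x.1 x.2) (hpp x.2 x.1) }
  have h1 : (∑ ω, F ω) * ∑ ω, G ω = ∑ x : (P → W) × (P → W), F x.1 * G x.2 := by
    rw [Finset.sum_mul_sum, Fintype.sum_prod_type]
  have h2 : ∑ x : (P → W) × (P → W), F x.1 * G x.2 =
      ∑ x : (P → W) × (P → W), F (e x).1 * G (e x).2 :=
    (Equiv.sum_comp e (fun x : (P → W) × (P → W) => F x.1 * G x.2)).symm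
  have h3 : ∀ x : (P → W) × (P → W), F (e x).1 * G (e x).2 = F x.1 * G x.1 := by
    intro x
    have h4 : F (e x).1 = F x.1 := hF _ _ fun p hp => by simp [e, hp]
    have h5 : G (e x).2 = G x.1 := hG _ _ fun p hp => by simp [e, hp]
    rw [h4, h5]
  rw [h1, h2, Finset.sum_congr rfl fun x _ => h3 x, Fintype.sum_prod_type, Finset.mul_sum]
  refine Finset.sum_congr rfl fun ω _ => ?_
  show _ = ∑ _y : P → W, F ω * G ω
  rw [Finset.sum_const, Finset.card_univ, nsmul_eq_mul, Fintype.card_fun, Nat.cast_pow]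

end Data

end Pool.Agent.Lib.MP_33d9ce_co.Slack
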