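import Pool.Agent.Lib.MP_33d9ce_co.Slack.Law

/-!
# Spanning hypercubes, slack scheme: posterior distributions
-/

set_option autoImplicit false

noncomputable section

open Classical Finset

namespace Pool.Agent.Lib.MP_33d9ce_co.Slack

variable {P I S Y T W : Type} [Fintype P] [Fintype I] [Fintype S] [Fintype Y] [Fintype T] [Fintype W]

namespace Data

variable (D : Data P I S Y T W) {θ : ℝ} {μ : (P → W) → I → (P → S) → ℝ}

private theorem bayes_den_nonneg (ω : P → W) (y : Y) (a : T → S) :
    0 ≤ ∑ w', D.law (Function.update ω (D.cell y) w') y a :=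
  sum_nonneg fun w _ => D.law_nonneg _ y a

private theorem bayes_num_le (ω : P → W) (y : Y) (a : T → S) (w : W) :
    D.law (Function.update ω (D.cell y) w) y a ≤
      ∑ w', D.law (Function.update ω (D.cell y) w') y a :=
  single_le_sum (f := fun w' => D.law (Function.update ω (D.cell y) w') y a)
    (fun w _ => D.law_nonneg _ y a) (mem_univ w)

private theorem bayes_sum (ω : P → W) (y : Y) (a : T → S)
    (h : ∑ w', D.law (Function.update ω (D.cell y) w') y a ≠ 0) :
    ∑ w, D.post ω y a w = 1 := by
  unfold post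
  rw [← sum_div]
  exact div_self h

theorem post_nonneg (ω : P → W) (y : Y) (a : T → S) (w : W) : 0 ≤ D.post ω y a w :=
  div_nonneg (D.law_nonneg _ y a) (D.bayes_den_nonneg ω y a)

theorem sum_post (ω : P → W) (y : Y) (a : T → S) (ha : D.law ω y a ≠ 0) :
    ∑ w, D.post ω y a w = 1 := by
  refine D.bayes_sum ω y a fun h0 => ha ?_
  have h1 := D.bayes_num_le ω y a (ω (D.cell y))
  rw [Function.update_eq_self, h0] at h1
  exact le_antisymm h1 (D.law_nonneg ω y a)

theorem sum_post_le (ω : P → W) (y : Y) (a : T → S) : ∑ w, D.post ω y a w ≤ 1 := by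
  by_cases h : ∑ w', D.law (Function.update ω (D.cell y) w') y a = 0
  · have : ∑ w, D.post ω y a w = 0 := by
      refine sum_eq_zero fun w _ => ?_
      unfold post
      rw [h, div_zero]
    rw [this]
    exact zero_le_one
  · exact (D.bayes_sum ω y a h).le

theorem post_comp {D : Data P I S Y T W} (h : D.Good θ) {ω : P → W} {y : Y} {a : T → S} {w : W}
    (hw : D.post ω y a w ≠ 0) : w ∈ D.comp y a := by
  have h1 : D.law (Function.update ω (D.cell y) w) y a ≠ 0 := by
    intro h0
    apply hw
    unfold post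
    rw [h0, zero_div]
  have h2 := mem_comp_of_law h h1
  rwa [Function.update_self] at h2

theorem post_le {D : Data P I S Y T W} (h : D.Good θ) (ω : P → W) (y : Y) (a : T → S) (w : W) :
    D.post ω y a w ≤ ((1 - θ) ^ Fintype.card T)⁻¹ * ((D.comp y a).card : ℝ)⁻¹ := by
  have hθ : 0 < (1 - θ) ^ Fintype.card T := pow_pos (by linarith [h.theta_lt]) _
  have hR : 0 ≤ ((1 - θ) ^ Fintype.card T)⁻¹ * ((D.comp y a).card : ℝ)⁻¹ := by positivity
  by_cases hp : D.post ω y a w = 0
  · rw [hp]
    exact hR
  obtain ⟨h0, n0, -, u0, l0, -⟩ := exists_hat h ω y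
  have hw : w ∈ D.comp y a := post_comp h hp
  have hn : D.law (Function.update ω (D.cell y) w) y a ≠ 0 := by
    intro h0
    apply hp
    unfold post
    rw [h0, zero_div]
  have hpos : 0 < D.law (Function.update ω (D.cell y) w) y a :=
    lt_of_le_of_ne (D.law_nonneg _ y a) (Ne.symm hn)
  have h0pos : 0 < h0 a := hpos.trans_le (u0 w a)
  have hc : 0 < ((D.comp y a).card : ℝ) := by
    exact_mod_cast card_pos.2 ⟨w, hw⟩
  have hden : ((D.comp y a).card : ℝ) * ((1 - θ) ^ Fintype.card T * h0 a) ≤
      ∑ w', D.law (Function.update ω (D.cell y) w') y a := by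
    calc ((D.comp y a).card : ℝ) * ((1 - θ) ^ Fintype.card T * h0 a)
        = ∑ _w' ∈ D.comp y a, (1 - θ) ^ Fintype.card T * h0 a := by
          rw [sum_const, nsmul_eq_mul]
      _ ≤ ∑ w' ∈ D.comp y a, D.law (Function.update ω (D.cell y) w') y a :=
          sum_le_sum fun w' hw' => l0 w' a h0pos.ne' hw'
      _ ≤ ∑ w', D.law (Function.update ω (D.cell y) w') y a :=
          sum_le_sum_of_subset_of_nonneg (subset_univ _) fun w' _ _ => D.law_nonneg _ y a
  unfold post
  calc D.law (Function.update ω (D.cell y) w) y a /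
        ∑ w', D.law (Function.update ω (D.cell y) w') y a
      ≤ h0 a / (((D.comp y a).card : ℝ) * ((1 - θ) ^ Fintype.card T * h0 a)) :=
        div_le_div₀ h0pos.le (u0 w a) (by positivity) hden
    _ = ((1 - θ) ^ Fintype.card T)⁻¹ * ((D.comp y a).card : ℝ)⁻¹ := by
        have := h0pos.ne'
        have := hc.ne'
        have := hθ.ne'
        field_simp

/-- the average over the label `w` of the cell of `y` of the posterior of `v` -/
theorem bayes {D : Data P I S Y T W} (h : D.Good θ) (ω : P → W) (y : Y) (v : W) :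
    ∑ w, ∑ a, D.law (Function.update ω (D.cell y) w) y a *
      D.post (Function.update ω (D.cell y) w) y a v = 1 := by
  have e1 : ∀ w a, D.post (Function.update ω (D.cell y) w) y a v = D.post ω y a v := by
    intro w a
    unfold post
    simp only [Function.update_idem]
  simp only [e1]
  rw [sum_comm]
  rw [← sum_law h (Function.update ω (D.cell y) v) y]
  refine sum_congr rfl fun a _ => ?_
  rw [← sum_mul]
  by_cases h0 : ∑ w', D.law (Function.update ω (D.cell y) w') y a = 0
  · have h1 := D.bayes_num_le ω y a v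
    rw [h0] at h1 ⊢
    rw [zero_mul]
    exact (le_antisymm h1 (D.law_nonneg _ y a)).symm
  · unfold post
    field_simp

/-- the planted estimate -/
theorem planted {D : Data P I S Y T W} (h : D.Good θ) (ω : P → W) (y : Y) :
    ∑ w, ∑ a, D.law (Function.update ω (D.cell y) w) y a * ((D.comp y a).card : ℝ)⁻¹ ≤
      ((1 - θ) ^ Fintype.card T)⁻¹ := by
  obtain ⟨h0, n0, s0, u0, -, z0⟩ := exists_hat h ω y
  rw [sum_comm, ← s0]
  refine sum_le_sum fun a _ => ?_
  rw [← sum_mul]
  have e1 : ∑ w, D.law (Function.update ω (D.cell y) w) y a =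
      ∑ w ∈ D.comp y a, D.law (Function.update ω (D.cell y) w) y a :=
    (sum_subset (subset_univ _) fun w _ hw => z0 w a hw).symm
  have e2 : ∑ w ∈ D.comp y a, D.law (Function.update ω (D.cell y) w) y a ≤
      ((D.comp y a).card : ℝ) * h0 a := by
    calc ∑ w ∈ D.comp y a, D.law (Function.update ω (D.cell y) w) y a
        ≤ ∑ _w ∈ D.comp y a, h0 a := sum_le_sum fun w _ => u0 w a
      _ = ((D.comp y a).card : ℝ) * h0 a := by rw [sum_const, nsmul_eq_mul]
  rw [e1]
  rcases Nat.eq_zero_or_pos (D.comp y a).card with hc | hc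
  · rw [hc]
    simp only [Nat.cast_zero, inv_zero, mul_zero]
    exact n0 a
  · have hc' : (0 : ℝ) < (D.comp y a).card := by exact_mod_cast hc
    calc (∑ w ∈ D.comp y a, D.law (Function.update ω (D.cell y) w) y a) *
          ((D.comp y a).card : ℝ)⁻¹
        ≤ (((D.comp y a).card : ℝ) * h0 a) * ((D.comp y a).card : ℝ)⁻¹ :=
          mul_le_mul_of_nonneg_right e2 (inv_nonneg.2 hc'.le)
      _ = h0 a := by
          have := hc'.ne'
          field_simp

end Data

end Pool.Agent.Lib.MP_33d9ce_co.Slack
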