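import Pool.Agent.Lib.MP_33d9ce_co.Slack.Defs

/-!
# Spanning hypercubes, slack scheme: an elementary inequality
-/

set_option autoImplicit false

noncomputable section

open Classical Finset

namespace Pool.Agent.Lib.MP_33d9ce_co.Slack

/-- the elementary inequality -/
theorem elem (d tA tB e τ ρ : ℝ) (hd : 0 < d) (hd' : d ≤ 1 / 16) (hA : 0 ≤ tA) (hA' : tA ≤ d)
    (hB : 0 ≤ tB) (hB' : tB ≤ 1 - d) (hτ : τ ≤ tA + tB) (hρ : tA + tB ≤ 1 - ρ) (hτ0 : 0 < τ)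
    (hρ0 : 0 < ρ) (he : e < τ / 4) (he' : e < ρ / 4) :
    tA + tB < 1 - (1 - tB / (1 - d)) ^ 2 * (1 - tA / (1 + d)) ^ 2 - e := by
  have h1d : (0 : ℝ) < 1 - d := by linarith
  have h1d' : (0 : ℝ) < 1 + d := by linarith
  have hx0 : 0 ≤ tB / (1 - d) := by positivity
  have hx1 : tB / (1 - d) ≤ 1 := by rw [div_le_one h1d]; exact hB'
  have hxB : tB ≤ tB / (1 - d) := by
    rw [le_div_iff₀ h1d]; nlinarith
  have hy0 : 0 ≤ tA / (1 + d) := by positivity
  have hy1 : tA / (1 + d) ≤ 1 / 16 := by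
    rw [div_le_iff₀ h1d']; nlinarith
  have hyA : 16 / 17 * tA ≤ tA / (1 + d) := by
    rw [le_div_iff₀ h1d']; nlinarith
  set x := tB / (1 - d) with hx
  set y := tA / (1 + d) with hy
  have hq : 0 ≤ (1 - y) ^ 2 := sq_nonneg _
  by_cases hc : tB ≤ 1 / 2
  · have e1 : (1 - x) ^ 2 ≤ 1 - 3 / 2 * tB := by
      have : (1 - x) ^ 2 ≤ (1 - tB) ^ 2 := by
        apply pow_le_pow_left₀ (by linarith); linarith
      nlinarith
    have e2 : (1 - y) ^ 2 ≤ 1 - 9 / 5 * tA := by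
      nlinarith
    have e3 : (1 - x) ^ 2 * (1 - y) ^ 2 ≤ (1 - 3 / 2 * tB) * (1 - 9 / 5 * tA) :=
      mul_le_mul e1 e2 hq (by linarith)
    have e4 : tA * tB ≤ 1 / 16 * tB := mul_le_mul_of_nonneg_right (by linarith) hB
    nlinarith
  · push Not at hc
    have e1 : (1 - x) ^ 2 ≤ 8 / 15 * (1 - (tA + tB)) := by
      have f1 : 1 - x ≤ 1 / 2 := by linarith
      have f2 : 1 - x ≤ 16 / 15 * (1 - (tA + tB)) := by
        have : 1 - x = (1 - d - tB) / (1 - d) := by rw [hx]; field_simp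
        rw [this, div_le_iff₀ h1d]
        nlinarith
      have f3 : 0 ≤ 1 - x := by linarith
      nlinarith
    have e2 : (1 - y) ^ 2 ≤ 1 := by nlinarith
    have e3 : (1 - x) ^ 2 * (1 - y) ^ 2 ≤ 8 / 15 * (1 - (tA + tB)) * 1 :=
      mul_le_mul e1 e2 hq (by linarith)
    linarith

end Pool.Agent.Lib.MP_33d9ce_co.Slack
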