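import Pool.Agent.Lib.MP_33d9ce_co.Slack.ExA
import Pool.Agent.Lib.MP_33d9ce_co.Slack.Avg

/-!
# Spanning hypercubes, slack scheme: second moments
-/

set_option autoImplicit false
set_option linter.unusedSectionVars false

noncomputable section

open Classical Finset

namespace Pool.Agent.Lib.MP_33d9ce_co.Slack

variable {P I S Y T W : Type} [Fintype P] [Fintype I] [Fintype S] [Fintype Y] [Fintype T] [Fintype W]

namespace Data

variable (D : Data P I S Y T W) {θ : ℝ} {μ : (P → W) → I → (P → S) → ℝ}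

/-! ### linearity of the expectation -/

private lemma exB_sum {ι : Type} (s : Finset ι) (F : ι → (P → W) → (I → P → S) → ℝ) :
    Ex μ (fun ω σ => ∑ i ∈ s, F i ω σ) = ∑ i ∈ s, Ex μ (F i) := by
  unfold Ex
  rw [← Finset.mul_sum]
  congr 1
  simp only [Finset.mul_sum]
  have h1 : ∀ ω : P → W, ∑ σ : I → P → S, ∑ i ∈ s, (∏ j, μ ω j (σ j)) * F i ω σ =
      ∑ i ∈ s, ∑ σ : I → P → S, (∏ j, μ ω j (σ j)) * F i ω σ := fun ω => Finset.sum_comm
  simp only [h1]
  exact Finset.sum_comm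

private lemma exB_add (F G : (P → W) → (I → P → S) → ℝ) :
    Ex μ (fun ω σ => F ω σ + G ω σ) = Ex μ F + Ex μ G := by
  unfold Ex
  simp only [mul_add, Finset.sum_add_distrib]

private lemma exB_cmul (c : ℝ) (F : (P → W) → (I → P → S) → ℝ) :
    Ex μ (fun ω σ => c * F ω σ) = c * Ex μ F := by
  unfold Ex
  have h1 : ∀ (ω : P → W) (σ : I → P → S), (∏ j, μ ω j (σ j)) * (c * F ω σ) =
      c * ((∏ j, μ ω j (σ j)) * F ω σ) := fun ω σ => by ring
  simp only [h1, ← Finset.mul_sum]
  ring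

private lemma exB_one {D : Data P I S Y T W} (h : D.Good θ) (hμ : D.IsLaw μ) (c : ℝ) :
    Ex μ (fun _ _ => c) = c := by
  have hW := h.nonemptyW
  unfold Ex
  have h1 : ∀ ω : P → W, ∑ σ : I → P → S, (∏ j, μ ω j (σ j)) * c = c := by
    intro ω
    rw [← Finset.sum_mul]
    have h2 : ∑ σ : I → P → S, ∏ j, μ ω j (σ j) = ∏ j, ∑ τ, μ ω j τ := by
      rw [Finset.prod_univ_sum]
      simp [Fintype.piFinset_univ]
    rw [h2]
    simp [hμ.sum_one]
  simp only [h1]
  have h3 : (Fintype.card W : ℝ) ≠ 0 := by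
    have := Fintype.card_pos (α := W)
    positivity
  simp only [Finset.sum_const, Finset.card_univ, Fintype.card_fun, nsmul_eq_mul, Nat.cast_pow]
  field_simp

/-! ### locality -/

private lemma exB_law_congr {ω ω' : P → W} {y : Y} (h : ∀ p ∈ D.zone y, ω p = ω' p) (a : T → S) :
    D.law ω y a = D.law ω' y a := by
  have h1 : ∀ t, D.al ω (D.nb y t).1 (D.nb y t).2 = D.al ω' (D.nb y t).1 (D.nb y t).2 := by
    intro t
    ext s
    simp only [al, Finset.mem_filter, Finset.mem_univ, true_and]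
    have h2 : ∀ q ∈ D.star (D.nb y t).1, ω q = ω' q := fun q hq =>
      h q (Finset.mem_biUnion.mpr ⟨t, Finset.mem_univ t, hq⟩)
    constructor
    · intro h3 q hq
      rw [← h2 q hq]
      exact h3 q hq
    · intro h3 q hq
      rw [h2 q hq]
      exact h3 q hq
  unfold law u
  simp only [h1]

private lemma exB_post_congr {ω ω' : P → W} {y : Y} (h : ∀ p ∈ D.zone y, ω p = ω' p) (a : T → S)
    (w : W) : D.post ω y a w = D.post ω' y a w := by
  have h1 : ∀ w', D.law (Function.update ω (D.cell y) w') y a =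
      D.law (Function.update ω' (D.cell y) w') y a := by
    intro w'
    refine exB_law_congr D (fun p hp => ?_) a
    by_cases hpc : p = D.cell y
    · subst hpc
      simp
    · simp [Function.update_of_ne hpc, h p hp]
  unfold post
  simp only [h1]

theorem Ex_far {D : Data P I S Y T W} (h : D.Good θ) (hμ : D.IsLaw μ) {y y' : Y}
    (hf : D.Far y y') (w : W) :
    Ex μ (fun ω σ => D.post ω y (D.im σ y) w * D.post ω y' (D.im σ y') w) =
      ((Fintype.card W : ℝ)⁻¹) ^ 2 := by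
  have hW := h.nonemptyW
  have hcW : (Fintype.card W : ℝ) ≠ 0 := by
    have := Fintype.card_pos (α := W)
    positivity
  have hN : ((Fintype.card W : ℝ) ^ Fintype.card P) ≠ 0 := pow_ne_zero _ hcW
  set F : Y → (P → W) → ℝ := fun y ω => ∑ a, D.law ω y a * D.post ω y a w with hF
  -- the product law
  have h1 : ∀ ω : P → W, ∑ σ : I → P → S, (∏ i, μ ω i (σ i)) *
      (D.post ω y (D.im σ y) w * D.post ω y' (D.im σ y') w) = F y ω * F y' ω := by
    intro ω
    have hg : Function.Injective (Sum.elim (fun t => (D.nb y t).2) (fun t => (D.nb y' t).2)) := by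
      intro j j' hjj
      rcases j with t | t <;> rcases j' with t' | t'
      · simp only [Sum.elim_inl] at hjj
        rw [h.ginj y hjj]
      · exact absurd hjj (hf.1 t t')
      · exact absurd hjj.symm (hf.1 t' t)
      · simp only [Sum.elim_inr] at hjj
        rw [h.ginj y' hjj]
    have h2 := cyl (fun i => μ ω i) (hμ.sum_one ω) (J := T ⊕ T) _ hg
      (Sum.elim (fun t => (D.nb y t).1) (fun t => (D.nb y' t).1))
      (fun a => D.post ω y (fun t => a (.inl t)) w * D.post ω y' (fun t => a (.inr t)) w)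
    have h3 : ∀ σ : I → P → S, D.post ω y (D.im σ y) w * D.post ω y' (D.im σ y') w =
        (fun a : T ⊕ T → S => D.post ω y (fun t => a (.inl t)) w *
          D.post ω y' (fun t => a (.inr t)) w) (fun j => σ
            (Sum.elim (fun t => (D.nb y t).2) (fun t => (D.nb y' t).2) j)
            (Sum.elim (fun t => (D.nb y t).1) (fun t => (D.nb y' t).1) j)) := fun σ => rfl
    simp only [h3]
    rw [h2]
    simp only [hμ.marg]
    simp only [Fintype.prod_sum_type, Sum.elim_inl, Sum.elim_inr]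
    have h8 := Fintype.sum_equiv (Equiv.sumArrowEquivProdArrow T T S)
      (fun x : T ⊕ T → S => ((∏ a₁, D.u ω (D.nb y a₁).1 (D.nb y a₁).2 (x (Sum.inl a₁))) *
          ∏ a₂, D.u ω (D.nb y' a₂).1 (D.nb y' a₂).2 (x (Sum.inr a₂))) *
        (D.post ω y (fun t => x (Sum.inl t)) w * D.post ω y' (fun t => x (Sum.inr t)) w))
      (fun x : (T → S) × (T → S) => (D.law ω y x.1 * D.post ω y x.1 w) *
        (D.law ω y' x.2 * D.post ω y' x.2 w))
      (fun x => by
        simp only [Equiv.sumArrowEquivProdArrow, Equiv.coe_fn_mk, law, Function.comp_def]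
        ring)
    refine Eq.trans ?_ (h8.trans ?_)
    · exact Finset.sum_congr (by ext; simp) fun _ _ => rfl
    · rw [Fintype.sum_prod_type]
      simp only [hF]
      rw [Finset.sum_mul_sum]
  have h4 : ∀ z : Y, ∑ ω : P → W, F z ω =
      ((Fintype.card W : ℝ) ^ Fintype.card P) * (Fintype.card W : ℝ)⁻¹ := by
    intro z
    have h5 := Ex_im h hμ z (fun ω a => D.post ω z a w)
    rw [Ex_post h hμ z w] at h5
    rw [h5, hF]
    field_simp
  have h6 := avg_mul (W := W) (D.zone y) (F y) (F y')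
    (fun ω ω' hω => by
      simp only [hF]
      refine Finset.sum_congr rfl fun a _ => ?_
      rw [exB_law_congr D hω, exB_post_congr D hω])
    (fun ω ω' hω => by
      simp only [hF]
      have h7 : ∀ p ∈ D.zone y', ω p = ω' p := fun p hp =>
        hω p (fun hp' => (Finset.disjoint_left.mp hf.2 hp') hp)
      refine Finset.sum_congr rfl fun a _ => ?_
      rw [exB_law_congr D h7, exB_post_congr D h7])
  rw [h4, h4] at h6
  unfold Ex
  simp only [h1]
  field_simp at h6 ⊢
  linarith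

private lemma exB_far_symm {D : Data P I S Y T W} {y y' : Y} (h : D.Far y y') : D.Far y' y :=
  ⟨fun t t' hh => h.1 t' t hh.symm, h.2.symm⟩

/-- the centred second moment of one pair -/
private lemma exB_pair {D : Data P I S Y T W} (h : D.Good θ) (hμ : D.IsLaw μ) (y y' : Y) (w : W) :
    Ex μ (fun ω σ => (D.post ω y (D.im σ y) w - (Fintype.card W : ℝ)⁻¹) *
      (D.post ω y' (D.im σ y') w - (Fintype.card W : ℝ)⁻¹)) =
    Ex μ (fun ω σ => D.post ω y (D.im σ y) w * D.post ω y' (D.im σ y') w) -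
      ((Fintype.card W : ℝ)⁻¹) ^ 2 := by
  have h1 : (fun (ω : P → W) (σ : I → P → S) => (D.post ω y (D.im σ y) w - (Fintype.card W : ℝ)⁻¹) *
      (D.post ω y' (D.im σ y') w - (Fintype.card W : ℝ)⁻¹)) =
      fun ω σ => (D.post ω y (D.im σ y) w * D.post ω y' (D.im σ y') w +
        (-(Fintype.card W : ℝ)⁻¹) * D.post ω y (D.im σ y) w) +
        ((-(Fintype.card W : ℝ)⁻¹) * D.post ω y' (D.im σ y') w +
          ((Fintype.card W : ℝ)⁻¹) ^ 2) := by
    funext ω σ
    ring
  rw [h1, exB_add, exB_add, exB_add, exB_cmul, exB_cmul, Ex_post h hμ, Ex_post h hμ, exB_one h hμ]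
  ring

theorem Ex_K {D : Data P I S Y T W} (h : D.Good θ) (hμ : D.IsLaw μ) (Δ : ℝ)
    (hΔ : ∀ y, (({y' | ¬ D.Far y y'} : Finset Y).card : ℝ) ≤ Δ) :
    Ex μ (fun ω σ => ∑ w, ((∑ y, D.post ω y (D.im σ y) w) -
        Fintype.card Y * (Fintype.card W : ℝ)⁻¹) ^ 2) ≤
      Δ * Fintype.card Y * (((1 - θ) ^ Fintype.card T)⁻¹) ^ 2 * (Fintype.card W : ℝ)⁻¹ := by
  have e1 : (fun (ω : P → W) (σ : I → P → S) => ∑ w, ((∑ y, D.post ω y (D.im σ y) w) -
        Fintype.card Y * (Fintype.card W : ℝ)⁻¹) ^ 2) =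
      fun ω σ => ∑ w, ∑ y, ∑ y', (D.post ω y (D.im σ y) w - (Fintype.card W : ℝ)⁻¹) *
        (D.post ω y' (D.im σ y') w - (Fintype.card W : ℝ)⁻¹) := by
    funext ω σ
    refine Finset.sum_congr rfl fun w _ => ?_
    have e2 : (∑ y, D.post ω y (D.im σ y) w) - Fintype.card Y * (Fintype.card W : ℝ)⁻¹ =
        ∑ y, (D.post ω y (D.im σ y) w - (Fintype.card W : ℝ)⁻¹) := by
      rw [Finset.sum_sub_distrib]
      simp
    rw [e2, sq, Finset.sum_mul_sum]
  rw [e1, exB_sum]
  simp only [exB_sum]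
  -- the second moments
  set Z : W → Y → ℝ := fun w y => Ex μ (fun ω σ => (D.post ω y (D.im σ y) w - (Fintype.card W : ℝ)⁻¹) *
        (D.post ω y (D.im σ y) w - (Fintype.card W : ℝ)⁻¹)) with hZ
  have hZ0 : ∀ w y, 0 ≤ Z w y := by
    intro w y
    have h2 := Ex_mono (F := fun _ _ => (0 : ℝ)) (G := fun ω σ =>
      (D.post ω y (D.im σ y) w - (Fintype.card W : ℝ)⁻¹) *
        (D.post ω y (D.im σ y) w - (Fintype.card W : ℝ)⁻¹)) D hμ
      (fun ω σ _ => mul_self_nonneg _)
    rwa [exB_one h hμ] at h2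
  have hZ1 : ∀ w y, Z w y ≤ Ex μ (fun ω σ => D.post ω y (D.im σ y) w ^ 2) := by
    intro w y
    simp only [hZ]
    rw [exB_pair h hμ]
    have : 0 ≤ ((Fintype.card W : ℝ)⁻¹) ^ 2 := by positivity
    simp only [sq] at this ⊢
    linarith
  have hpair : ∀ w y y', Ex μ (fun ω σ => (D.post ω y (D.im σ y) w - (Fintype.card W : ℝ)⁻¹) *
      (D.post ω y' (D.im σ y') w - (Fintype.card W : ℝ)⁻¹)) ≤
      (if ¬ D.Far y y' then (Z w y) / 2 else 0) + (if ¬ D.Far y' y then (Z w y') / 2 else 0) := by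
    intro w y y'
    by_cases hf : D.Far y y'
    · have hf' := exB_far_symm hf
      rw [exB_pair h hμ, Ex_far h hμ hf]
      simp [hf, hf']
    · have hf' : ¬ D.Far y' y := fun hh => hf (exB_far_symm hh)
      rw [if_pos hf, if_pos hf']
      have h2 := Ex_mono (F := fun ω σ => (D.post ω y (D.im σ y) w - (Fintype.card W : ℝ)⁻¹) *
        (D.post ω y' (D.im σ y') w - (Fintype.card W : ℝ)⁻¹))
        (G := fun ω σ =>
          (1 / 2 : ℝ) * ((D.post ω y (D.im σ y) w - (Fintype.card W : ℝ)⁻¹) *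
            (D.post ω y (D.im σ y) w - (Fintype.card W : ℝ)⁻¹)) +
          (1 / 2 : ℝ) * ((D.post ω y' (D.im σ y') w - (Fintype.card W : ℝ)⁻¹) *
            (D.post ω y' (D.im σ y') w - (Fintype.card W : ℝ)⁻¹))) D hμ
        (fun ω σ _ => by
          nlinarith [sq_nonneg ((D.post ω y (D.im σ y) w - (Fintype.card W : ℝ)⁻¹) -
            (D.post ω y' (D.im σ y') w - (Fintype.card W : ℝ)⁻¹))])
      rw [exB_add, exB_cmul, exB_cmul] at h2
      simp only [hZ]
      linarith
  have hsum : ∀ w, ∑ y, ∑ y', Ex μ (fun ω σ => (D.post ω y (D.im σ y) w - (Fintype.card W : ℝ)⁻¹) *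
      (D.post ω y' (D.im σ y') w - (Fintype.card W : ℝ)⁻¹)) ≤
      ∑ y, Δ * Ex μ (fun ω σ => D.post ω y (D.im σ y) w ^ 2) := by
    intro w
    refine (Finset.sum_le_sum fun y _ => Finset.sum_le_sum fun y' _ => hpair w y y').trans ?_
    simp only [Finset.sum_add_distrib]
    have h3 : ∑ y, ∑ y', (if ¬ D.Far y' y then (Z w y') / 2 else 0) =
        ∑ y, ∑ y', (if ¬ D.Far y y' then (Z w y) / 2 else 0) := Finset.sum_comm
    rw [h3, ← Finset.sum_add_distrib]
    refine Finset.sum_le_sum fun y _ => ?_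
    have h4 : ∑ y', (if ¬ D.Far y y' then (Z w y) / 2 else 0) =
        (({y' | ¬ D.Far y y'} : Finset Y).card : ℝ) * ((Z w y) / 2) := by
      rw [← Finset.sum_filter, Finset.sum_const, nsmul_eq_mul]
    rw [h4]
    have h5 : (({y' | ¬ D.Far y y'} : Finset Y).card : ℝ) * ((Z w y) / 2) ≤ Δ * ((Z w y) / 2) :=
      mul_le_mul_of_nonneg_right (hΔ y) (by have := hZ0 w y; linarith)
    have h6 : 0 ≤ Δ := (Nat.cast_nonneg _).trans (hΔ y)
    have h7 := mul_le_mul_of_nonneg_left (hZ1 w y) h6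
    linarith
  refine (Finset.sum_le_sum fun w _ => hsum w).trans ?_
  rw [Finset.sum_comm]
  have h8 : ∀ y : Y, ∑ w, Δ * Ex μ (fun ω σ => D.post ω y (D.im σ y) w ^ 2) ≤
      Δ * ((((1 - θ) ^ Fintype.card T)⁻¹) ^ 2 * (Fintype.card W : ℝ)⁻¹) := by
    intro y
    rw [← Finset.mul_sum]
    exact mul_le_mul_of_nonneg_left (Ex_post_sq h hμ y) ((Nat.cast_nonneg _).trans (hΔ y))
  refine (Finset.sum_le_sum fun y _ => h8 y).trans (le_of_eq ?_)
  rw [Finset.sum_const, Finset.card_univ, nsmul_eq_mul]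
  ring

end Data

end Pool.Agent.Lib.MP_33d9ce_co.Slack
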