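import Pool.Agent.Lib.MP_33d9ce_co.Slack.ExB
import Pool.Agent.Lib.MP_33d9ce_co.Slack.Block

/-!
# Spanning hypercubes, slack scheme: existence of a good placement
-/

set_option autoImplicit false

noncomputable section

open Classical Finset

namespace Pool.Agent.Lib.MP_33d9ce_co.Slack

variable {P I S Y T W : Type} [Fintype P] [Fintype I] [Fintype S] [Fintype Y] [Fintype T] [Fintype W]

namespace Data

variable (D : Data P I S Y T W) {θ : ℝ} {μ : (P → W) → I → (P → S) → ℝ}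

private theorem exist_add (F G : (P → W) → (I → P → S) → ℝ) :
    Ex μ (fun ω σ => F ω σ + G ω σ) = Ex μ F + Ex μ G := by
  unfold Ex
  simp only [mul_add, Finset.sum_add_distrib]

private theorem exist_mul (c : ℝ) (F : (P → W) → (I → P → S) → ℝ) :
    Ex μ (fun ω σ => c * F ω σ) = c * Ex μ F := by
  unfold Ex
  simp only [Finset.mul_sum]
  refine Finset.sum_congr rfl fun ω _ => Finset.sum_congr rfl fun σ _ => ?_
  ring

private theorem exist_sum {K : Type} (s : Finset K) (F : K → (P → W) → (I → P → S) → ℝ) :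
    Ex μ (fun ω σ => ∑ b ∈ s, F b ω σ) = ∑ b ∈ s, Ex μ (F b) := by
  induction s using Finset.induction_on with
  | empty => simp [Ex]
  | insert a s ha ih =>
    simp only [Finset.sum_insert ha]
    rw [exist_add, ih]

omit [Fintype Y] [Fintype T] [Fintype W] in
private theorem exist_sum_prod {D : Data P I S Y T W} (hμ : D.IsLaw μ) (ω : P → W) :
    ∑ σ : I → P → S, (∏ i, μ ω i (σ i)) = 1 := by
  have h := Finset.prod_univ_sum (fun _ : I => (Finset.univ : Finset (P → S))) (fun i τ => μ ω i τ)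
  rw [Fintype.piFinset_univ] at h
  rw [← h]
  exact Finset.prod_eq_one fun i _ => hμ.sum_one ω i

omit [Fintype Y] [Fintype T] in
private theorem exist_one {D : Data P I S Y T W} (h : D.Good θ) (hμ : D.IsLaw μ) :
    Ex μ (fun _ _ => 1) = 1 := by
  unfold Ex
  have := h.nonemptyW
  simp only [mul_one, exist_sum_prod hμ, Finset.sum_const, Finset.card_univ, Fintype.card_fun,
    nsmul_eq_mul]
  push_cast
  have hW : (Fintype.card W : ℝ) ≠ 0 := by exact_mod_cast Fintype.card_ne_zero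
  exact inv_mul_cancel₀ (pow_ne_zero _ hW)

private theorem exist_block {D : Data P I S Y T W} (h : D.Good θ) (hμ : D.IsLaw μ)
    (okv : I → S → Prop) {η : ℝ} (h0 : 0 ≤ η) (h1 : η ≤ 1)
    (hv : ∀ i, (({s | ¬ okv i s} : Finset S).card : ℝ) ≤ η * Fintype.card P)
    (β : Finset Y) (hβ : ∀ y ∈ β, ∀ y' ∈ β, y ≠ y' → ∀ t t', (D.nb y t).2 ≠ (D.nb y' t').2) :
    Ex μ (fun _ σ => if ∀ y ∈ β, ¬ ∀ t, okv (D.nb y t).2 (D.im σ y t) then 1 else 0) ≤
      (1 - (1 - η) ^ Fintype.card T) ^ β.card := by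
  unfold Ex
  have := h.nonemptyW
  have hW : (0 : ℝ) < Fintype.card W := by exact_mod_cast Fintype.card_pos
  calc ((Fintype.card W : ℝ) ^ Fintype.card P)⁻¹ * ∑ ω : P → W, ∑ σ : I → P → S,
        (∏ i, μ ω i (σ i)) * (if ∀ y ∈ β, ¬ ∀ t, okv (D.nb y t).2 (D.im σ y t) then 1 else 0)
      ≤ ((Fintype.card W : ℝ) ^ Fintype.card P)⁻¹ * ∑ _ω : P → W,
        (1 - (1 - η) ^ Fintype.card T) ^ β.card := by
        refine mul_le_mul_of_nonneg_left (Finset.sum_le_sum fun ω _ => ?_) (by positivity)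
        exact block h hμ ω okv h0 h1 hv β hβ
    _ = (1 - (1 - η) ^ Fintype.card T) ^ β.card := by
        simp only [Finset.sum_const, Finset.card_univ, Fintype.card_fun, nsmul_eq_mul]
        push_cast
        rw [← mul_assoc, inv_mul_cancel₀ (by positivity), one_mul]

omit [Fintype Y] [Fintype W] in
/-- consequences of a positive weight -/
private theorem exist_pos {D : Data P I S Y T W} (hμ : D.IsLaw μ) {ω : P → W}
    {σ : I → P → S} (hw : (∏ i, μ ω i (σ i)) ≠ 0) :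
    (∀ i, Function.Injective (σ i)) ∧ (∀ y, D.law ω y (D.im σ y) ≠ 0) := by
  have hi : ∀ i, μ ω i (σ i) ≠ 0 := fun i => (Finset.prod_ne_zero_iff.mp hw) i (Finset.mem_univ i)
  refine ⟨fun i => hμ.inj ω i _ (hi i), fun y => ?_⟩
  unfold law im
  refine Finset.prod_ne_zero_iff.mpr fun t _ => ?_
  rw [← hμ.marg]
  have h1 : (0 : ℝ) < μ ω (D.nb y t).2 (σ (D.nb y t).2) :=
    lt_of_le_of_ne (hμ.nonneg _ _ _) (Ne.symm (hi _))
  have h2 : μ ω (D.nb y t).2 (σ (D.nb y t).2) ≤ ∑ τ, (if τ (D.nb y t).1 =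
      σ (D.nb y t).2 (D.nb y t).1 then μ ω (D.nb y t).2 τ else 0) := by
    have h3 := Finset.single_le_sum (f := fun τ => (if τ (D.nb y t).1 =
      σ (D.nb y t).2 (D.nb y t).1 then μ ω (D.nb y t).2 τ else 0)) (s := Finset.univ)
      (fun τ _ => by
        by_cases hc : τ (D.nb y t).1 = σ (D.nb y t).2 (D.nb y t).1
        · simp only [hc, if_true]; exact hμ.nonneg _ _ _
        · simp only [hc, if_false]; exact le_refl _) (Finset.mem_univ (σ (D.nb y t).2))
    simpa using h3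
  exact (h1.trans_le h2).ne'

/-- the core: a function with expectation less than one is less than one somewhere -/
private theorem exist_lt {D : Data P I S Y T W} (h : D.Good θ) (hμ : D.IsLaw μ)
    (F : (P → W) → (I → P → S) → ℝ) (hF : Ex μ F < 1) :
    ∃ ω σ, (∏ i, μ ω i (σ i)) ≠ 0 ∧ F ω σ < 1 := by
  by_contra hcon
  push Not at hcon
  have h1 := Ex_mono D hμ (F := fun _ _ => 1) (G := F) fun ω σ hw => hcon ω σ hw
  rw [exist_one h hμ] at h1
  linarith

/-- **E.**  A good choice of labels and placements.  `Ω` is the set of vertices `v`, `okv v i s` means that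
the position `s` of the group `i` is adjacent to `v`; `β` is a family of blocks. -/
theorem exists_good {D : Data P I S Y T W} (h : D.Good θ) (Δ : ℝ)
    (hΔ : ∀ y, (({y' | ¬ D.Far y y'} : Finset Y).card : ℝ) ≤ Δ)
    {Ω K : Type} [Fintype Ω] [Fintype K] (okv : Ω → I → S → Prop) {η : ℝ} (h0 : 0 ≤ η) (h1 : η ≤ 1)
    (hv : ∀ v i, (({s | ¬ okv v i s} : Finset S).card : ℝ) ≤ η * Fintype.card P)
    (β : K → Finset Y)
    (hβ : ∀ b, ∀ y ∈ β b, ∀ y' ∈ β b, y ≠ y' → ∀ t t', (D.nb y t).2 ≠ (D.nb y' t').2)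
    (hs : ∑ b : K, (Fintype.card Ω : ℝ) * (1 - (1 - η) ^ Fintype.card T) ^ (β b).card < 1 / 4) :
    ∃ (ω : P → W) (σ : I → P → S), (∀ i, Function.Injective (σ i)) ∧
      (∀ y, D.law ω y (D.im σ y) ≠ 0) ∧
      (∀ v b, ∃ y ∈ β b, ∀ t, okv v (D.nb y t).2 (D.im σ y t)) ∧
      ∑ y, ((D.comp y (D.im σ y)).card : ℝ)⁻¹ ≤
        4 * Fintype.card Y * (((1 - θ) ^ Fintype.card T)⁻¹ * (Fintype.card W : ℝ)⁻¹) ∧
      ∑ w, ((∑ y, D.post ω y (D.im σ y) w) - Fintype.card Y * (Fintype.card W : ℝ)⁻¹) ^ 2 ≤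
        4 * (Δ * Fintype.card Y * (((1 - θ) ^ Fintype.card T)⁻¹) ^ 2 *
          (Fintype.card W : ℝ)⁻¹) := by
  obtain ⟨μ, hμ⟩ := exists_law h
  have hWne := h.nonemptyW
  have hTne := h.nonemptyT
  have hW : (0 : ℝ) < Fintype.card W := by exact_mod_cast Fintype.card_pos
  have hθ : 0 < 1 - θ := by linarith [h.theta_lt]
  set Λ : ℝ := ((1 - θ) ^ Fintype.card T)⁻¹ with hΛ
  have hΛ0 : 0 < Λ := by rw [hΛ]; positivity
  set wi : ℝ := (Fintype.card W : ℝ)⁻¹ with hwi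
  have hwi0 : 0 < wi := by rw [hwi]; positivity
  -- failures
  set Fl : (P → W) → (I → P → S) → ℝ := fun _ σ => ∑ b : K, ∑ v : Ω,
    (if ∀ y ∈ β b, ¬ ∀ t, okv v (D.nb y t).2 (D.im σ y t) then (1 : ℝ) else 0) with hFl
  have hFl0 : ∀ ω σ, 0 ≤ Fl ω σ := fun ω σ => Finset.sum_nonneg fun b _ =>
    Finset.sum_nonneg fun v _ => by split_ifs <;> norm_num
  have hFlE : Ex μ Fl < 1 / 4 := by
    refine lt_of_le_of_lt ?_ hs
    rw [hFl, exist_sum]
    refine Finset.sum_le_sum fun b _ => ?_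
    rw [exist_sum]
    calc ∑ v : Ω, Ex μ (fun _ σ => if ∀ y ∈ β b, ¬ ∀ t, okv v (D.nb y t).2 (D.im σ y t)
          then (1 : ℝ) else 0) ≤ ∑ _v : Ω, (1 - (1 - η) ^ Fintype.card T) ^ (β b).card :=
          Finset.sum_le_sum fun v _ => exist_block h hμ (okv v) h0 h1 (hv v) (β b) (hβ b)
      _ = _ := by simp
  have hFlz : ∀ ω σ, Fl ω σ < 1 → ∀ v b, ∃ y ∈ β b, ∀ t, okv v (D.nb y t).2 (D.im σ y t) := by
    intro ω σ hlt v b
    by_contra hcon
    push Not at hcon
    have h2 : ∀ y ∈ β b, ¬ ∀ t, okv v (D.nb y t).2 (D.im σ y t) := by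
      intro y hy hall
      obtain ⟨t, ht⟩ := hcon y hy
      exact ht (hall t)
    have h3 : (1 : ℝ) ≤ Fl ω σ := by
      have h4 : (1 : ℝ) = (if ∀ y ∈ β b, ¬ ∀ t, okv v (D.nb y t).2 (D.im σ y t)
          then (1 : ℝ) else 0) := by rw [if_pos h2]
      rw [h4]
      refine le_trans (Finset.single_le_sum (f := fun v => (if ∀ y ∈ β b, ¬ ∀ t,
        okv v (D.nb y t).2 (D.im σ y t) then (1 : ℝ) else 0)) (fun v _ => ?_)
        (Finset.mem_univ v)) ?_
      · split_ifs <;> norm_num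
      · exact Finset.single_le_sum (f := fun b => ∑ v : Ω, (if ∀ y ∈ β b, ¬ ∀ t,
          okv v (D.nb y t).2 (D.im σ y t) then (1 : ℝ) else 0)) (fun b _ =>
          Finset.sum_nonneg fun v _ => by split_ifs <;> norm_num) (Finset.mem_univ b)
    linarith
  rcases isEmpty_or_nonempty Y with hY | hY
  · obtain ⟨ω, σ, hw, hlt⟩ := exist_lt h hμ Fl (by linarith)
    obtain ⟨g1, g2⟩ := exist_pos hμ hw
    refine ⟨ω, σ, g1, g2, hFlz ω σ hlt, ?_, ?_⟩
    · simp
    · simp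
  · have hY0 : (0 : ℝ) < Fintype.card Y := by exact_mod_cast Fintype.card_pos
    have hΔ1 : 1 ≤ Δ := by
      obtain ⟨y⟩ := hY
      obtain ⟨t⟩ := hTne
      refine le_trans ?_ (hΔ y)
      have h2 : 0 < (({y' | ¬ D.Far y y'} : Finset Y)).card := by
        refine Finset.card_pos.mpr ⟨y, ?_⟩
        simp only [Finset.mem_filter, Finset.mem_univ, true_and]
        intro hf
        exact hf.1 t t rfl
      exact_mod_cast h2
    set m : ℝ := Fintype.card Y * (Λ * wi) with hm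
    set q : ℝ := Δ * Fintype.card Y * Λ ^ 2 * wi with hq
    have hm0 : 0 < m := by positivity
    have hq0 : 0 < q := by positivity
    set X : (P → W) → (I → P → S) → ℝ := fun _ σ => ∑ y, ((D.comp y (D.im σ y)).card : ℝ)⁻¹ with hX
    set Z : (P → W) → (I → P → S) → ℝ := fun ω σ =>
      ∑ w, ((∑ y, D.post ω y (D.im σ y) w) - Fintype.card Y * wi) ^ 2 with hZ
    have hX0 : ∀ ω σ, 0 ≤ X ω σ := fun ω σ => Finset.sum_nonneg fun y _ => by positivity
    have hZ0 : ∀ ω σ, 0 ≤ Z ω σ := fun ω σ => Finset.sum_nonneg fun w _ => sq_nonneg _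
    have hXE : Ex μ X ≤ m := by
      rw [hX, exist_sum]
      calc ∑ y, Ex μ (fun _ σ => ((D.comp y (D.im σ y)).card : ℝ)⁻¹) ≤ ∑ _y : Y, Λ * wi :=
            Finset.sum_le_sum fun y _ => Ex_comp h hμ y
        _ = m := by simp [hm]
    have hZE : Ex μ Z ≤ q := Ex_K h hμ Δ hΔ
    have hall : Ex μ (fun ω σ => ((4 * m)⁻¹ * X ω σ + (4 * q)⁻¹ * Z ω σ) + Fl ω σ) < 1 := by
      rw [exist_add, exist_add, exist_mul, exist_mul]
      have e1 : (4 * m)⁻¹ * Ex μ X ≤ 1 / 4 := by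
        calc (4 * m)⁻¹ * Ex μ X ≤ (4 * m)⁻¹ * m := mul_le_mul_of_nonneg_left hXE (by positivity)
          _ = 1 / 4 := by field_simp
      have e2 : (4 * q)⁻¹ * Ex μ Z ≤ 1 / 4 := by
        calc (4 * q)⁻¹ * Ex μ Z ≤ (4 * q)⁻¹ * q := mul_le_mul_of_nonneg_left hZE (by positivity)
          _ = 1 / 4 := by field_simp
      linarith
    obtain ⟨ω, σ, hw, hlt⟩ := exist_lt h hμ _ hall
    obtain ⟨g1, g2⟩ := exist_pos hμ hw
    have a1 : 0 ≤ (4 * m)⁻¹ * X ω σ := mul_nonneg (by positivity) (hX0 ω σ)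
    have a2 : 0 ≤ (4 * q)⁻¹ * Z ω σ := mul_nonneg (by positivity) (hZ0 ω σ)
    have a3 := hFl0 ω σ
    refine ⟨ω, σ, g1, g2, hFlz ω σ (by linarith), ?_, ?_⟩
    · have b1 : (4 * m)⁻¹ * X ω σ < 1 := by linarith
      have b2 : X ω σ < 4 * m := by
        have b3 : 0 < 4 * m := by positivity
        calc X ω σ = (4 * m) * ((4 * m)⁻¹ * X ω σ) := by field_simp
          _ < (4 * m) * 1 := by gcongr
          _ = 4 * m := mul_one _
      have b4 : X ω σ = ∑ y, ((D.comp y (D.im σ y)).card : ℝ)⁻¹ := rfl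
      rw [← b4]
      rw [hm] at b2
      linarith
    · have b1 : (4 * q)⁻¹ * Z ω σ < 1 := by linarith
      have b2 : Z ω σ < 4 * q := by
        calc Z ω σ = (4 * q) * ((4 * q)⁻¹ * Z ω σ) := by field_simp
          _ < (4 * q) * 1 := by gcongr
          _ = 4 * q := mul_one _
      exact b2.le

end Data

end Pool.Agent.Lib.MP_33d9ce_co.Slack
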