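import Pool.Agent.Lib.MP_33d9ce_co.Slack.CubeDefs

/-!
# Spanning hypercubes, slack scheme: near pairs of odd vertices
-/

set_option autoImplicit false

noncomputable section

open Classical Finset

namespace Pool.Agent.Lib.MP_33d9ce_co.Slack

private lemma Far_mem {P I S Y T W : Type} [Fintype P] [Fintype I] [Fintype S] [Fintype Y]
    [Fintype T] [Fintype W] (D : Data P I S Y T W) (y : Y) (q : P) :
    q ∈ D.zone y ↔ ∃ t, q ∈ D.star (D.nb y t).1 := by
  unfold Data.zone
  simp

variable {k m r : ℕ} {V S : Type} [Fintype V] [Fintype S]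

private lemma Far_two {ι : Type} (c : ι → ZMod 2) : c + c = 0 := by
  funext i
  have : ∀ a : ZMod 2, a + a = 0 := by decide
  exact this (c i)

/-- zero or a unit vector -/
private def Far_oe (o : Option (Fin k)) : Cell k := o.elim 0 (fun i => Pi.single i 1)

private lemma Far_dc (t : Dir k m r) : ∃ o : Option (Fin k), dc t = Far_oe o := by
  rcases t with i | s
  · exact ⟨some i, rfl⟩
  · exact ⟨none, rfl⟩

private lemma Far_star {p q : Cell k} (h : q = p ∨ ∃ i : Fin k, p + Pi.single i 1 = q) :
    ∃ o : Option (Fin k), q = p + Far_oe o := by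
  rcases h with h | ⟨i, hi⟩
  · exact ⟨none, by rw [h]; simp [Far_oe]⟩
  · exact ⟨some i, hi.symm⟩

private lemma Far_zone (A : Finset V) (adj : V → V → Prop) (f : Ev k m r → S → V)
    (y : Cell k × Od k m r) {q : Cell k} (h : q ∈ (data A adj f).zone y) :
    ∃ o o' : Option (Fin k), q = y.1 + Far_oe o + Far_oe o' := by
  obtain ⟨t, ht⟩ := (Far_mem _ _ _).mp h
  simp only [data, nbr, Finset.mem_insert, Finset.mem_image, Finset.mem_univ, true_and] at ht
  obtain ⟨o', ho'⟩ := Far_star (p := y.1 + dc t) ht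
  obtain ⟨o, ho⟩ := Far_dc t
  exact ⟨o, o', by rw [ho', ho]⟩

theorem far_count (A : Finset V) (adj : V → V → Prop) (f : Ev k m r → S → V)
    (y : Cell k × Od k m r) :
    (({y' | ¬ (data A adj f).Far y y'} : Finset (Cell k × Od k m r)).card : ℝ) ≤
      (k + 1) ^ 4 * Fintype.card (Od k m r) +
        (Fintype.card (Dir k m r)) ^ 2 * Fintype.card (Cell k) := by
  -- the two parts
  set G : Finset (Cell k × Od k m r) :=
    (univ : Finset (Dir k m r × Dir k m r)).biUnion fun tt =>
      univ.filter fun y' : Cell k × Od k m r => y'.2.1 = y.2.1 + dg tt.1 + dg tt.2 with hG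
  set Z : Finset (Cell k × Od k m r) :=
    (univ : Finset ((Option (Fin k) × Option (Fin k)) × (Option (Fin k) × Option (Fin k)) ×
      Od k m r)).image fun o =>
      (y.1 + Far_oe o.1.1 + Far_oe o.1.2 + Far_oe o.2.1.1 + Far_oe o.2.1.2, o.2.2) with hZ
  have hsub : ({y' | ¬ (data A adj f).Far y y'} : Finset (Cell k × Od k m r)) ⊆ Z ∪ G := by
    intro y' hy'
    have hy : ¬ (data A adj f).Far y y' := (Finset.mem_filter.mp hy').2
    unfold Data.Far at hy
    rw [not_and_or] at hy
    rcases hy with hy | hy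
    · refine Finset.mem_union_right _ ?_
      push Not at hy
      obtain ⟨t, t', htt⟩ := hy
      have h1 : y.2.1 + dg t = y'.2.1 + dg t' := congrArg Subtype.val htt
      refine Finset.mem_biUnion.mpr ⟨(t, t'), Finset.mem_univ _, Finset.mem_filter.mpr
        ⟨Finset.mem_univ _, ?_⟩⟩
      show y'.2.1 = y.2.1 + dg t + dg t'
      rw [h1, add_assoc, Far_two, add_zero]
    · refine Finset.mem_union_left _ ?_
      rw [Finset.not_disjoint_iff] at hy
      obtain ⟨q, hq, hq'⟩ := hy
      obtain ⟨o1, o2, h1⟩ := Far_zone A adj f y hq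
      obtain ⟨o3, o4, h2⟩ := Far_zone A adj f y' hq'
      refine Finset.mem_image.mpr ⟨((o1, o2), (o3, o4), y'.2), Finset.mem_univ _, ?_⟩
      refine Prod.ext ?_ rfl
      show y.1 + Far_oe o1 + Far_oe o2 + Far_oe o3 + Far_oe o4 = y'.1
      rw [← h1, h2]
      have e : y'.1 + Far_oe o3 + Far_oe o4 + Far_oe o3 + Far_oe o4 =
          y'.1 + (Far_oe o3 + Far_oe o3) + (Far_oe o4 + Far_oe o4) := by abel
      rw [e, Far_two, Far_two, add_zero, add_zero]
  have hZc : Z.card ≤ (k + 1) ^ 4 * Fintype.card (Od k m r) := by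
    refine Finset.card_image_le.trans (le_of_eq ?_)
    rw [Finset.card_univ]
    simp only [Fintype.card_prod, Fintype.card_option, Fintype.card_fin]
    ring
  have hGc : G.card ≤ Fintype.card (Dir k m r) ^ 2 * Fintype.card (Cell k) := by
    refine Finset.card_biUnion_le.trans ?_
    have h1 : ∀ tt ∈ (univ : Finset (Dir k m r × Dir k m r)),
        (univ.filter fun y' : Cell k × Od k m r => y'.2.1 = y.2.1 + dg tt.1 + dg tt.2).card ≤
          Fintype.card (Cell k) := by
      intro tt _
      rw [← Finset.card_univ]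
      refine Finset.card_le_card_of_injOn (fun y' => y'.1) (fun _ _ => Finset.mem_univ _) ?_
      intro a ha b hb hab
      have ha' := (Finset.mem_filter.mp ha).2
      have hb' := (Finset.mem_filter.mp hb).2
      exact Prod.ext hab (Subtype.ext (ha'.trans hb'.symm))
    refine (Finset.sum_le_card_nsmul _ _ _ h1).trans (le_of_eq ?_)
    rw [Finset.card_univ, Fintype.card_prod, smul_eq_mul]
    ring
  have hc : (({y' | ¬ (data A adj f).Far y y'} : Finset (Cell k × Od k m r)).card) ≤
      (k + 1) ^ 4 * Fintype.card (Od k m r) +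
        (Fintype.card (Dir k m r)) ^ 2 * Fintype.card (Cell k) :=
    (Finset.card_le_card hsub).trans ((Finset.card_union_le _ _).trans (add_le_add hZc hGc))
  exact_mod_cast hc

end Pool.Agent.Lib.MP_33d9ce_co.Slack
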