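import Pool.Agent.Lib.MP_33d9ce_co.Slack.Elem

/-!
# Spanning hypercubes, slack scheme: the matching
-/

set_option autoImplicit false

noncomputable section

open Classical Finset

namespace Pool.Agent.Lib.MP_33d9ce_co.Slack

variable {P I S Y T W : Type} [Fintype P] [Fintype I] [Fintype S] [Fintype Y] [Fintype T] [Fintype W]

/-- Cauchy–Schwarz: a set of labels gets at least its share up to `e M` -/
lemma hall_cs {W : Type} [Fintype W] (K : W → ℝ) (M e : ℝ) (he0 : 0 ≤ e) (hM : 0 < M)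
    (hK : ∑ w, (K w - M * (Fintype.card W : ℝ)⁻¹) ^ 2 ≤ (e * M) ^ 2 * (Fintype.card W : ℝ)⁻¹)
    (s : Finset W) :
    (s.card : ℝ) * (M * (Fintype.card W : ℝ)⁻¹) - e * M ≤ ∑ w ∈ s, K w := by
  have hx : (s.card : ℝ) * (Fintype.card W : ℝ)⁻¹ ≤ 1 := by
    rcases isEmpty_or_nonempty W with hW | hW
    · have : s.card = 0 := by
        rw [Finset.card_eq_zero]; exact Finset.eq_empty_of_isEmpty s
      rw [this]; simp
    · have hc : (0 : ℝ) < Fintype.card W := by exact_mod_cast Fintype.card_pos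
      have hs : (s.card : ℝ) ≤ Fintype.card W := by exact_mod_cast Finset.card_le_univ s
      rw [← div_eq_mul_inv, div_le_one hc]; exact hs
  have h1 : (∑ w ∈ s, (M * (Fintype.card W : ℝ)⁻¹ - K w)) ^ 2 ≤ (e * M) ^ 2 := by
    calc (∑ w ∈ s, (M * (Fintype.card W : ℝ)⁻¹ - K w)) ^ 2
        ≤ s.card * ∑ w ∈ s, (M * (Fintype.card W : ℝ)⁻¹ - K w) ^ 2 := sq_sum_le_card_mul_sum_sq
      _ ≤ s.card * ∑ w, (K w - M * (Fintype.card W : ℝ)⁻¹) ^ 2 := by
          refine mul_le_mul_of_nonneg_left ?_ (Nat.cast_nonneg _)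
          calc ∑ w ∈ s, (M * (Fintype.card W : ℝ)⁻¹ - K w) ^ 2
              = ∑ w ∈ s, (K w - M * (Fintype.card W : ℝ)⁻¹) ^ 2 := by
                refine Finset.sum_congr rfl fun w _ => by ring
            _ ≤ _ := Finset.sum_le_sum_of_subset_of_nonneg (Finset.subset_univ _)
                fun _ _ _ => sq_nonneg _
      _ ≤ s.card * ((e * M) ^ 2 * (Fintype.card W : ℝ)⁻¹) :=
          mul_le_mul_of_nonneg_left hK (Nat.cast_nonneg _)
      _ = (e * M) ^ 2 * ((s.card : ℝ) * (Fintype.card W : ℝ)⁻¹) := by ring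
      _ ≤ (e * M) ^ 2 * 1 := mul_le_mul_of_nonneg_left hx (sq_nonneg _)
      _ = _ := by ring
  have h2 : ∑ w ∈ s, (M * (Fintype.card W : ℝ)⁻¹ - K w) ≤ e * M :=
    abs_le_of_sq_le_sq' h1 (mul_nonneg he0 hM.le) |>.2
  rw [Finset.sum_sub_distrib, Finset.sum_const, nsmul_eq_mul] at h2
  linarith

lemma hall_card_B {V : Type} [Fintype V] (A R : Finset V) :
    ((univ.filter fun v : {v // v ∉ A} => (v : V) ∉ R).card : ℝ) =
      (Fintype.card {v // v ∉ A} : ℝ) - ((R.filter (· ∉ A)).card : ℝ) := by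
  have h1 : (univ.filter fun v : {v // v ∉ A} => (v : V) ∈ R).card = (R.filter (· ∉ A)).card := by
    refine Finset.card_bij (fun v _ => (v : V)) ?_ ?_ ?_
    · intro v hv
      rw [Finset.mem_filter] at hv ⊢
      exact ⟨hv.2, v.2⟩
    · intro v _ w _ h
      exact Subtype.ext h
    · intro v hv
      rw [Finset.mem_filter] at hv
      exact ⟨⟨v, hv.2⟩, by rw [Finset.mem_filter]; exact ⟨Finset.mem_univ _, hv.1⟩, rfl⟩
  have h2 := Finset.card_filter_add_card_filter_not (s := (univ : Finset {v // v ∉ A}))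
    (fun v : {v // v ∉ A} => (v : V) ∈ R)
  rw [h1, Finset.card_univ] at h2
  have h3 : ((R.filter (· ∉ A)).card : ℝ) +
      ((univ.filter fun v : {v // v ∉ A} => (v : V) ∉ R).card : ℝ) =
      (Fintype.card {v // v ∉ A} : ℝ) := by exact_mod_cast h2
  linarith

lemma hall_card_A {V : Type} [Fintype V] (A R : Finset V) :
    ((univ.filter fun v : {v // v ∈ A} => (v : V) ∉ R).card : ℝ) =
      (Fintype.card {v // v ∈ A} : ℝ) - ((R.filter (· ∈ A)).card : ℝ) := by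
  have h1 : (univ.filter fun v : {v // v ∈ A} => (v : V) ∈ R).card = (R.filter (· ∈ A)).card := by
    refine Finset.card_bij (fun v _ => (v : V)) ?_ ?_ ?_
    · intro v hv
      rw [Finset.mem_filter] at hv ⊢
      exact ⟨hv.2, v.2⟩
    · intro v _ w _ h
      exact Subtype.ext h
    · intro v hv
      rw [Finset.mem_filter] at hv
      exact ⟨⟨v, hv.2⟩, by rw [Finset.mem_filter]; exact ⟨Finset.mem_univ _, hv.1⟩, rfl⟩
  have h2 := Finset.card_filter_add_card_filter_not (s := (univ : Finset {v // v ∈ A}))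
    (fun v : {v // v ∈ A} => (v : V) ∈ R)
  rw [h1, Finset.card_univ] at h2
  have h3 : ((R.filter (· ∈ A)).card : ℝ) +
      ((univ.filter fun v : {v // v ∈ A} => (v : V) ∉ R).card : ℝ) =
      (Fintype.card {v // v ∈ A} : ℝ) := by exact_mod_cast h2
  linarith

/-- the labels hitting `R` -/
def hitW {V : Type} [Fintype V] (A R : Finset V) :
    Finset (({v // v ∉ A} × {v // v ∉ A}) × ({v // v ∈ A} × {v // v ∈ A})) :=
  univ.filter fun w => (w.1.1 : V) ∈ R ∨ (w.1.2 : V) ∈ R ∨ (w.2.1 : V) ∈ R ∨ (w.2.2 : V) ∈ R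

lemma mem_hitW {V : Type} [Fintype V] (A R : Finset V)
    (w : ({v // v ∉ A} × {v // v ∉ A}) × ({v // v ∈ A} × {v // v ∈ A})) :
    w ∈ hitW A R ↔
      (w.1.1 : V) ∈ R ∨ (w.1.2 : V) ∈ R ∨ (w.2.1 : V) ∈ R ∨ (w.2.2 : V) ∈ R := by
  unfold hitW
  rw [Finset.mem_filter]
  exact ⟨fun h => h.2, fun h => ⟨Finset.mem_univ _, h⟩⟩

lemma card_hitW {V : Type} [Fintype V] (A R : Finset V) :
    ((hitW A R).card : ℝ) =
      (Fintype.card (({v // v ∉ A} × {v // v ∉ A}) × ({v // v ∈ A} × {v // v ∈ A})) : ℝ) -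
      ((Fintype.card {v // v ∉ A} : ℝ) - ((R.filter (· ∉ A)).card : ℝ)) ^ 2 *
        ((Fintype.card {v // v ∈ A} : ℝ) - ((R.filter (· ∈ A)).card : ℝ)) ^ 2 := by
  have h3 : (hitW A R)ᶜ =
      ((univ.filter fun v : {v // v ∉ A} => (v : V) ∉ R) ×ˢ
        (univ.filter fun v : {v // v ∉ A} => (v : V) ∉ R)) ×ˢ
      ((univ.filter fun v : {v // v ∈ A} => (v : V) ∉ R) ×ˢ
        (univ.filter fun v : {v // v ∈ A} => (v : V) ∉ R)) := by
    ext ⟨⟨b1, b2⟩, ⟨a1, a2⟩⟩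
    rw [Finset.mem_compl, mem_hitW, Finset.mem_product, Finset.mem_product, Finset.mem_product,
      Finset.mem_filter, Finset.mem_filter, Finset.mem_filter, Finset.mem_filter]
    have u1 := Finset.mem_univ b1
    have u2 := Finset.mem_univ b2
    have u3 := Finset.mem_univ a1
    have u4 := Finset.mem_univ a2
    tauto
  have h2 := Finset.card_compl_add_card (hitW A R)
  rw [h3, Finset.card_product, Finset.card_product, Finset.card_product] at h2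
  have h4 : (((univ.filter fun v : {v // v ∉ A} => (v : V) ∉ R).card : ℝ) *
        ((univ.filter fun v : {v // v ∉ A} => (v : V) ∉ R).card : ℝ)) *
      (((univ.filter fun v : {v // v ∈ A} => (v : V) ∉ R).card : ℝ) *
        ((univ.filter fun v : {v // v ∈ A} => (v : V) ∉ R).card : ℝ)) + ((hitW A R).card : ℝ) =
      (Fintype.card (({v // v ∉ A} × {v // v ∉ A}) × ({v // v ∈ A} × {v // v ∈ A})) : ℝ) := by
    exact_mod_cast h2
  rw [hall_card_B, hall_card_A] at h4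
  linarith

lemma hall_arith (d M rA rB e : ℝ) (h1d : (0 : ℝ) < 1 - d) (h1d' : (0 : ℝ) < 1 + d)
    (hM : 0 < M) :
    (((1 - d) * M) ^ 2 * ((1 + d) * M) ^ 2 - ((1 - d) * M - rB) ^ 2 *
      ((1 + d) * M - rA) ^ 2) * (M * (((1 - d) * M) ^ 2 * ((1 + d) * M) ^ 2)⁻¹) - e * M =
      (1 - (1 - rB / M / (1 - d)) ^ 2 * (1 - rA / M / (1 + d)) ^ 2 - e) * M := by
  have hb : (0 : ℝ) < (1 - d) * M := mul_pos h1d hM
  have ha : (0 : ℝ) < (1 + d) * M := mul_pos h1d' hM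
  have e1 : 1 - rB / M / (1 - d) = ((1 - d) * M - rB) * ((1 - d) * M)⁻¹ := by
    rw [div_div, mul_comm M (1 - d)]
    generalize (1 - d) * M = b at hb ⊢
    rw [sub_mul, mul_inv_cancel₀ hb.ne', div_eq_mul_inv]
  have e2 : 1 - rA / M / (1 + d) = ((1 + d) * M - rA) * ((1 + d) * M)⁻¹ := by
    rw [div_div, mul_comm M (1 + d)]
    generalize (1 + d) * M = b at ha ⊢
    rw [sub_mul, mul_inv_cancel₀ ha.ne', div_eq_mul_inv]
  rw [e1, e2]
  generalize hbb : (1 - d) * M = b at *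
  generalize haa : (1 + d) * M = a at *
  have e3 : (b ^ 2 * a ^ 2) * (b ^ 2 * a ^ 2)⁻¹ = 1 := mul_inv_cancel₀ (by positivity)
  have e4 : (b ^ 2 * a ^ 2)⁻¹ = (b⁻¹) ^ 2 * (a⁻¹) ^ 2 := by
    rw [mul_inv, inv_pow, inv_pow]
  calc (b ^ 2 * a ^ 2 - (b - rB) ^ 2 * (a - rA) ^ 2) * (M * (b ^ 2 * a ^ 2)⁻¹) - e * M
      = M * ((b ^ 2 * a ^ 2) * (b ^ 2 * a ^ 2)⁻¹)
        - (b - rB) ^ 2 * (a - rA) ^ 2 * (b ^ 2 * a ^ 2)⁻¹ * M - e * M := by ring
    _ = _ := by rw [e3, e4]; ring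

/-- the range of almost full sets of targets -/
lemma hall_top {V : Type} [Fintype V] (A Φ : Finset V) (hΦ : Φ ⊆ A) (M : ℝ)
    (cB : (Φᶜ : Finset V).card = Fintype.card Y) (cY : (Fintype.card Y : ℝ) = M)
    (C : Y → Finset V) (hpos : ∀ y, 0 < ((C y).filter (· ∉ A)).card)
    (ρ : ℝ)
    (hρ : ∑ y, (((C y).filter (· ∉ A)).card : ℝ)⁻¹ ^ 2 < (ρ * M)⁻¹)
    (R : Finset V) (hR : ∀ v ∈ R, v ∉ Φ) (c2 : (1 - ρ) * M < R.card) :
    R.card ≤ (univ.filter fun y : Y => ∃ v ∈ R, v ∈ C y).card := by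
  by_contra hcon
  push Not at hcon
  set N := univ.filter fun y : Y => ∃ v ∈ R, v ∈ C y with hN
  have memN : ∀ y, y ∈ N ↔ ∃ v ∈ R, v ∈ C y := fun y => by
    rw [hN, Finset.mem_filter]; exact ⟨fun h => h.2, fun h => ⟨Finset.mem_univ _, h⟩⟩
  have hRB : R ⊆ Φᶜ := fun v hv => Finset.mem_compl.2 (hR v hv)
  have hRle : R.card ≤ Fintype.card Y := by rw [← cB]; exact Finset.card_le_card hRB
  obtain ⟨m, hmR⟩ : ∃ m, m + R.card = Fintype.card Y := ⟨Fintype.card Y - R.card, by omega⟩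
  have hsub : ∀ y, y ∉ N → ((C y).filter (· ∉ A)).card ≤ m := by
    intro y hy
    have h1 : (C y).filter (· ∉ A) ⊆ Φᶜ \ R := by
      intro v hv
      rw [Finset.mem_filter] at hv
      rw [Finset.mem_sdiff, Finset.mem_compl]
      exact ⟨fun h => hv.2 (hΦ h), fun h => hy ((memN y).2 ⟨v, h, hv.1⟩)⟩
    have h2 := Finset.card_le_card h1
    rw [Finset.card_sdiff_of_subset hRB, cB] at h2
    omega
  have hNc : m + 1 ≤ (Nᶜ).card := by
    have := Finset.card_compl_add_card N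
    omega
  obtain ⟨y0, hy0⟩ : (Nᶜ).Nonempty := Finset.card_pos.1 (by omega)
  have hm1 : 1 ≤ m := le_trans (hpos y0) (hsub y0 (Finset.mem_compl.1 hy0))
  have hm1' : (1 : ℝ) ≤ m := by exact_mod_cast hm1
  have hmpos : (0 : ℝ) < m := by linarith
  have hsum : ((m : ℝ) + 1) * ((m : ℝ)⁻¹) ^ 2 ≤
      ∑ y, (((C y).filter (· ∉ A)).card : ℝ)⁻¹ ^ 2 := by
    calc ((m : ℝ) + 1) * ((m : ℝ)⁻¹) ^ 2 ≤ ((Nᶜ).card : ℝ) * ((m : ℝ)⁻¹) ^ 2 := by
          refine mul_le_mul_of_nonneg_right ?_ (sq_nonneg _)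
          exact_mod_cast hNc
      _ = ∑ y ∈ Nᶜ, ((m : ℝ)⁻¹) ^ 2 := by rw [Finset.sum_const, nsmul_eq_mul]
      _ ≤ ∑ y ∈ Nᶜ, (((C y).filter (· ∉ A)).card : ℝ)⁻¹ ^ 2 := by
          refine Finset.sum_le_sum fun y hy => ?_
          have h1 := hsub y (Finset.mem_compl.1 hy)
          have h2 := hpos y
          have h3 : (0 : ℝ) < ((C y).filter (· ∉ A)).card := by exact_mod_cast h2
          have h4 : (((C y).filter (· ∉ A)).card : ℝ) ≤ m := by exact_mod_cast h1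
          exact pow_le_pow_left₀ (inv_nonneg.2 hmpos.le) (inv_anti₀ h3 h4) 2
      _ ≤ _ := Finset.sum_le_sum_of_subset_of_nonneg (Finset.subset_univ _)
          fun _ _ _ => sq_nonneg _
  have hmr : (m : ℝ) < ρ * M := by
    have h1 : (m : ℝ) + R.card = M := by rw [← cY]; exact_mod_cast hmR
    have h2 : (1 - ρ) * M = M - ρ * M := by ring
    linarith
  have h5 : (ρ * M)⁻¹ ≤ (m : ℝ)⁻¹ := inv_anti₀ hmpos hmr.le
  have h6 : (m : ℝ)⁻¹ ≤ ((m : ℝ) + 1) * ((m : ℝ)⁻¹) ^ 2 := by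
    have h7 : (m : ℝ) * (m : ℝ)⁻¹ = 1 := mul_inv_cancel₀ hmpos.ne'
    have h8 : ((m : ℝ) + 1) * ((m : ℝ)⁻¹) ^ 2 =
        ((m : ℝ) * (m : ℝ)⁻¹) * (m : ℝ)⁻¹ + ((m : ℝ)⁻¹) ^ 2 := by ring
    rw [h8, h7]
    have := sq_nonneg ((m : ℝ)⁻¹)
    linarith
  linarith

/-- the middle range of Hall's condition -/
lemma hall_mid {V : Type} [Fintype V] (A Φ : Finset V) (hΦ : Φ ⊆ A) (M : ℝ) (d : ℝ)
    (hd : 0 < d) (hd' : d ≤ 1 / 16) (hM : 0 < M)
    (cV : (Fintype.card V : ℝ) = 2 * M) (cΦ : (Φ.card : ℝ) = M)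
    (cA : (A.card : ℝ) = (1 + d) * M)
    (C : Y → Finset V) (κ : Y → ({v // v ∉ A} × {v // v ∉ A}) × ({v // v ∈ A} × {v // v ∈ A}) → ℝ)
    (k0 : ∀ y w, 0 ≤ κ y w) (k1 : ∀ y, ∑ w, κ y w = 1)
    (k2 : ∀ y w, κ y w ≠ 0 → (w.1.1 : V) ∈ C y ∧ (w.1.2 : V) ∈ C y ∧ (w.2.1 : V) ∈ C y ∧
      (w.2.2 : V) ∈ C y)
    (τ ρ : ℝ) (hτ0 : 0 < τ) (hρ0 : 0 < ρ)
    (e : ℝ) (he : e < τ / 4) (he' : e < ρ / 4) (he0 : 0 ≤ e)
    (hK : ∑ w, ((∑ y, κ y w) - M * (Fintype.card (({v // v ∉ A} × {v // v ∉ A}) ×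
      ({v // v ∈ A} × {v // v ∈ A})) : ℝ)⁻¹) ^ 2 ≤
      (e * M) ^ 2 * (Fintype.card (({v // v ∉ A} × {v // v ∉ A}) ×
      ({v // v ∈ A} × {v // v ∈ A})) : ℝ)⁻¹) (R : Finset V) (hR : ∀ v ∈ R, v ∉ Φ)
    (c1 : τ * M < R.card) (c2 : (R.card : ℝ) ≤ (1 - ρ) * M) :
    (R.card : ℝ) < ((univ.filter fun y : Y => ∃ v ∈ R, v ∈ C y).card : ℝ) := by
  have memN : ∀ y, (∃ v ∈ R, v ∈ C y) → y ∈ univ.filter fun y : Y => ∃ v ∈ R, v ∈ C y :=
    fun y h => by rw [Finset.mem_filter]; exact ⟨Finset.mem_univ _, h⟩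
  generalize hNN : (univ.filter fun y : Y => ∃ v ∈ R, v ∈ C y) = N at memN ⊢
  have cAc : ((Aᶜ : Finset V).card : ℝ) = (1 - d) * M := by
    rw [Finset.card_compl, Nat.cast_sub (Finset.card_le_univ _), cV, cA]; ring
  have cBt : (Fintype.card {v // v ∉ A} : ℝ) = (1 - d) * M := by
    have h1 : Fintype.card {v // v ∉ A} = (Aᶜ).card := by
      rw [Fintype.card_subtype]
      congr 1
      ext v; rw [Finset.mem_filter, Finset.mem_compl]; exact ⟨fun h => h.2, fun h => ⟨Finset.mem_univ _, h⟩⟩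
    rw [h1, cAc]
  have cAt : (Fintype.card {v // v ∈ A} : ℝ) = (1 + d) * M := by
    rw [Fintype.card_coe, cA]
  have cW : (Fintype.card (({v // v ∉ A} × {v // v ∉ A}) × ({v // v ∈ A} × {v // v ∈ A})) : ℝ) =
      ((1 - d) * M) ^ 2 * ((1 + d) * M) ^ 2 := by
    rw [Fintype.card_prod, Fintype.card_prod, Fintype.card_prod, Nat.cast_mul, Nat.cast_mul,
      Nat.cast_mul, cBt, cAt]
    ring
  have hrB1 : ((R.filter (· ∉ A)).card : ℝ) ≤ (1 - d) * M := by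
    rw [← cAc]
    have : (R.filter (· ∉ A)).card ≤ (Aᶜ).card := Finset.card_le_card (fun v hv => by
      rw [Finset.mem_filter] at hv; exact Finset.mem_compl.2 hv.2)
    exact_mod_cast this
  have hrA1 : ((R.filter (· ∈ A)).card : ℝ) ≤ d * M := by
    have : (R.filter (· ∈ A)).card ≤ (A \ Φ).card := Finset.card_le_card (fun v hv => by
      rw [Finset.mem_filter] at hv; exact Finset.mem_sdiff.2 ⟨hv.2, hR v hv.1⟩)
    have h2 : ((R.filter (· ∈ A)).card : ℝ) ≤ ((A \ Φ).card : ℝ) := by exact_mod_cast this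
    rw [Finset.card_sdiff_of_subset hΦ, Nat.cast_sub (Finset.card_le_card hΦ), cΦ, cA] at h2
    linarith
  have hlow : ((hitW A R).card : ℝ) * (M * (Fintype.card (({v // v ∉ A} × {v // v ∉ A}) ×
      ({v // v ∈ A} × {v // v ∈ A})) : ℝ)⁻¹) - e * M ≤ N.card := by
    refine (hall_cs (fun w => ∑ y, κ y w) M e he0 hM hK (hitW A R)).trans ?_
    have h2 : ∀ w ∈ hitW A R, ∑ y, κ y w = ∑ y ∈ N, κ y w := by
      intro w hw
      symm
      refine Finset.sum_subset (Finset.subset_univ _) fun y _ hy => ?_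
      by_contra hne
      obtain ⟨g1, g2, g3, g4⟩ := k2 y w hne
      apply hy
      apply memN
      rw [mem_hitW] at hw
      rcases hw with h | h | h | h
      · exact ⟨_, h, g1⟩
      · exact ⟨_, h, g2⟩
      · exact ⟨_, h, g3⟩
      · exact ⟨_, h, g4⟩
    calc ∑ w ∈ hitW A R, ∑ y, κ y w = ∑ w ∈ hitW A R, ∑ y ∈ N, κ y w :=
          Finset.sum_congr rfl h2
      _ = ∑ y ∈ N, ∑ w ∈ hitW A R, κ y w := Finset.sum_comm
      _ ≤ ∑ y ∈ N, ∑ w, κ y w := Finset.sum_le_sum fun y _ =>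
          Finset.sum_le_sum_of_subset_of_nonneg (Finset.subset_univ _) fun w _ _ => k0 y w
      _ = ∑ y ∈ N, (1 : ℝ) := Finset.sum_congr rfl fun y _ => k1 y
      _ = N.card := by rw [Finset.sum_const, nsmul_eq_mul, mul_one]
  rw [card_hitW, cBt, cAt, cW] at hlow
  have hrAB : ((R.filter (· ∈ A)).card : ℝ) + ((R.filter (· ∉ A)).card : ℝ) = R.card := by
    exact_mod_cast Finset.card_filter_add_card_filter_not (s := R) (fun v => v ∈ A)
  have hrA0 : (0 : ℝ) ≤ ((R.filter (· ∈ A)).card : ℝ) := Nat.cast_nonneg _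
  have hrB0 : (0 : ℝ) ≤ ((R.filter (· ∉ A)).card : ℝ) := Nat.cast_nonneg _
  generalize ((R.filter (· ∈ A)).card : ℝ) = rA at *
  generalize ((R.filter (· ∉ A)).card : ℝ) = rB at *
  have h1d : (0 : ℝ) < 1 - d := by linarith
  have h1d' : (0 : ℝ) < 1 + d := by linarith
  rw [hall_arith d M rA rB e h1d h1d' hM] at hlow
  have hel := elem d (rA / M) (rB / M) e τ ρ hd hd' (div_nonneg hrA0 hM.le)
    ((div_le_iff₀ hM).2 hrA1) (div_nonneg hrB0 hM.le) ((div_le_iff₀ hM).2 hrB1)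
    (by rw [← add_div, hrAB, le_div_iff₀ hM]; exact c1.le)
    (by rw [← add_div, hrAB, div_le_iff₀ hM]; exact c2) hτ0 hρ0 he he'
  rw [← add_div, hrAB, div_lt_iff₀ hM] at hel
  linarith

/-- Hall's condition from the side of the targets -/
lemma hall_cond {V : Type} [Fintype V] (A Φ : Finset V) (hΦ : Φ ⊆ A) (M : ℝ) (d : ℝ)
    (hd : 0 < d) (hd' : d ≤ 1 / 16) (hM : 0 < M)
    (cV : (Fintype.card V : ℝ) = 2 * M) (cY : (Fintype.card Y : ℝ) = M) (cΦ : (Φ.card : ℝ) = M)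
    (cA : (A.card : ℝ) = (1 + d) * M) (cB : (Φᶜ : Finset V).card = Fintype.card Y)
    (C : Y → Finset V) (κ : Y → ({v // v ∉ A} × {v // v ∉ A}) × ({v // v ∈ A} × {v // v ∈ A}) → ℝ)
    (k0 : ∀ y w, 0 ≤ κ y w) (k1 : ∀ y, ∑ w, κ y w = 1)
    (k2 : ∀ y w, κ y w ≠ 0 → (w.1.1 : V) ∈ C y ∧ (w.1.2 : V) ∈ C y ∧ (w.2.1 : V) ∈ C y ∧
      (w.2.2 : V) ∈ C y)
    (τ ρ : ℝ) (hτ0 : 0 < τ) (hρ0 : 0 < ρ)
    (hτ : ∀ v, τ * M ≤ (({y | v ∈ C y} : Finset Y).card : ℝ))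
    (hρ : ∑ y, (((C y).filter (· ∉ A)).card : ℝ)⁻¹ ^ 2 < (ρ * M)⁻¹)
    (e : ℝ) (he : e < τ / 4) (he' : e < ρ / 4) (he0 : 0 ≤ e)
    (hK : ∑ w, ((∑ y, κ y w) - M * (Fintype.card (({v // v ∉ A} × {v // v ∉ A}) ×
      ({v // v ∈ A} × {v // v ∈ A})) : ℝ)⁻¹) ^ 2 ≤
      (e * M) ^ 2 * (Fintype.card (({v // v ∉ A} × {v // v ∉ A}) ×
      ({v // v ∈ A} × {v // v ∈ A})) : ℝ)⁻¹) (R : Finset V) (hR : ∀ v ∈ R, v ∉ Φ) :
    R.card ≤ (univ.filter fun y : Y => ∃ v ∈ R, v ∈ C y).card := by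
  rcases R.eq_empty_or_nonempty with h0 | ⟨v0, hv0⟩
  · rw [h0, Finset.card_empty]; exact Nat.zero_le _
  by_cases c1 : (R.card : ℝ) ≤ τ * M
  · have h1 : (({y | v0 ∈ C y} : Finset Y).card : ℝ) ≤
        ((univ.filter fun y : Y => ∃ v ∈ R, v ∈ C y).card : ℝ) := by
      have : ({y | v0 ∈ C y} : Finset Y) ⊆ univ.filter fun y : Y => ∃ v ∈ R, v ∈ C y := by
        intro y hy
        rw [Finset.mem_filter] at hy ⊢
        exact ⟨Finset.mem_univ _, v0, hv0, hy.2⟩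
      exact_mod_cast Finset.card_le_card this
    have h2 := hτ v0
    exact_mod_cast (le_trans c1 (le_trans h2 h1))
  push Not at c1
  by_cases c2 : (1 - ρ) * M < R.card
  · refine hall_top A Φ hΦ M cB cY C ?_ ρ hρ R hR c2
    intro y
    have : ∃ w, κ y w ≠ 0 := by
      by_contra hc
      push Not at hc
      have := k1 y
      rw [Finset.sum_eq_zero (fun w _ => hc w)] at this
      exact zero_ne_one this
    obtain ⟨w, hw⟩ := this
    exact Finset.card_pos.2 ⟨w.1.1, Finset.mem_filter.2 ⟨(k2 y w hw).1, w.1.1.2⟩⟩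
  push Not at c2
  have h3 := hall_mid A Φ hΦ M d hd hd' hM cV cΦ cA C κ k0 k1 k2 τ ρ hτ0 hρ0 e he he' he0 hK R hR
    c1 c2
  exact_mod_cast h3.le

/-- **H.**  `A` contains the image `Φ` of the even vertices, labels are `(b₁, b₂, a₁, a₂)` with
`b₁, b₂ ∉ A` and `a₁, a₂ ∈ A`. -/
theorem hall {V : Type} [Fintype V] (A Φ : Finset V) (hΦ : Φ ⊆ A) (M : ℝ) (d : ℝ)
    (hd : 0 < d) (hd' : d ≤ 1 / 16) (hM : 0 < M)
    (cV : (Fintype.card V : ℝ) = 2 * M) (cY : (Fintype.card Y : ℝ) = M) (cΦ : (Φ.card : ℝ) = M)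
    (cA : (A.card : ℝ) = (1 + d) * M)
    (C : Y → Finset V) (κ : Y → ({v // v ∉ A} × {v // v ∉ A}) × ({v // v ∈ A} × {v // v ∈ A}) → ℝ)
    (k0 : ∀ y w, 0 ≤ κ y w) (k1 : ∀ y, ∑ w, κ y w = 1)
    (k2 : ∀ y w, κ y w ≠ 0 → (w.1.1 : V) ∈ C y ∧ (w.1.2 : V) ∈ C y ∧ (w.2.1 : V) ∈ C y ∧
      (w.2.2 : V) ∈ C y)
    (τ ρ : ℝ) (hτ0 : 0 < τ) (hρ0 : 0 < ρ)
    (hτ : ∀ v, τ * M ≤ (({y | v ∈ C y} : Finset Y).card : ℝ))
    (hρ : ∑ y, (((C y).filter (· ∉ A)).card : ℝ)⁻¹ ^ 2 < (ρ * M)⁻¹)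
    (e : ℝ) (he : e < τ / 4) (he' : e < ρ / 4) (he0 : 0 ≤ e)
    (hK : ∑ w, ((∑ y, κ y w) - M * (Fintype.card (({v // v ∉ A} × {v // v ∉ A}) ×
      ({v // v ∈ A} × {v // v ∈ A})) : ℝ)⁻¹) ^ 2 ≤
      (e * M) ^ 2 * (Fintype.card (({v // v ∉ A} × {v // v ∉ A}) ×
      ({v // v ∈ A} × {v // v ∈ A})) : ℝ)⁻¹) :
    ∃ g : Y → V, Function.Injective g ∧ ∀ y, g y ∈ C y ∧ g y ∉ Φ := by
  have cB' : ((Φᶜ : Finset V).card : ℝ) = M := by
    rw [Finset.card_compl, Nat.cast_sub (Finset.card_le_univ _), cV, cΦ]; ring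
  have cB : (Φᶜ : Finset V).card = Fintype.card Y := by
    have : (((Φᶜ : Finset V).card : ℕ) : ℝ) = (Fintype.card Y : ℝ) := by rw [cB', cY]
    exact_mod_cast this
  have hcard : Fintype.card {v // v ∉ Φ} = Fintype.card Y := by
    rw [← cB, Fintype.card_subtype]
    congr 1
    ext v; rw [Finset.mem_filter, Finset.mem_compl]; exact ⟨fun h => h.2, fun h => ⟨Finset.mem_univ _, h⟩⟩
  obtain ⟨f, hf, hfC⟩ := (Finset.all_card_le_biUnion_card_iff_exists_injective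
    (fun v : {v // v ∉ Φ} => (univ.filter fun y : Y => (v : V) ∈ C y))).1 (by
      intro s
      have h1 := hall_cond A Φ hΦ M d hd hd' hM cV cY cΦ cA cB C κ k0 k1 k2 τ ρ hτ0 hρ0 hτ hρ e he
        he' he0 hK (s.map (Function.Embedding.subtype _)) (by
          intro v hv
          rw [Finset.mem_map] at hv
          obtain ⟨w, _, rfl⟩ := hv
          exact w.2)
      rw [Finset.card_map] at h1
      refine h1.trans (Finset.card_le_card ?_)
      intro y hy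
      rw [Finset.mem_filter] at hy
      obtain ⟨-, v, hv1, hv⟩ := hy
      rw [Finset.mem_map] at hv1
      obtain ⟨w, hw, rfl⟩ := hv1
      rw [Finset.mem_biUnion]
      exact ⟨w, hw, Finset.mem_filter.2 ⟨Finset.mem_univ _, hv⟩⟩)
  have hbij : Function.Bijective f :=
    (Fintype.bijective_iff_injective_and_card f).2 ⟨hf, hcard⟩
  let E := Equiv.ofBijective f hbij
  refine ⟨fun y => (E.symm y : V), ?_, ?_⟩
  · intro y y' h
    exact E.symm.injective (Subtype.ext h)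
  · intro y
    refine ⟨?_, (E.symm y).2⟩
    have h1 := hfC (E.symm y)
    rw [Finset.mem_filter] at h1
    have h2 : f (E.symm y) = y := E.apply_symm_apply y
    rw [h2] at h1
    exact h1.2

end Pool.Agent.Lib.MP_33d9ce_co.Slack
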