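import Pool.Agent.Lib.MP_33d9ce_co.Slack.Defs

/-!
# Spanning hypercubes, slack scheme: parameters
-/

set_option autoImplicit false

noncomputable section

open Classical Finset

namespace Pool.Agent.Lib.MP_33d9ce_co.Slack

/-- the relative error of the masses of the labels -/
def err (n k : ℕ) (η : ℝ) : ℝ :=
  2 * ((1 - 4 * η) ^ n)⁻¹ * √((k + 1) ^ 4 / 2 ^ k + n ^ 2 * 2 ^ k / 2 ^ (n - 1))

/-- the conditions on the parameters -/
structure Par (k m r n h : ℕ) (η : ℝ) : Prop where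
  n_eq : n = 4 * k + 4 * m + r
  k_ge : 4 ≤ k
  pos : 0 < η
  room : (k + 1) * (4 * η) ≤ 1 / 16
  deg : 4 * (h : ℝ) ≤ η * 2 ^ n
  array : (2 : ℝ) ^ n * 2 ^ (n - 1 - k) * Real.exp (-(η * 2 ^ k / 6)) < 1
  blocks : (2 : ℝ) ^ (n - 1) * (2 ^ n * (1 - (1 - η) ^ n) ^ (2 ^ m)) < 1 / 4
  err_small : err n k η < (2 ^ m)⁻¹ / 4
  err_large : err n k η < (1 - 4 * η) ^ n / 5 / 4

/-- powers of `1 - x` -/
private lemma params_pow {x : ℝ} (h1 : x < 1) (n : ℕ) {c : ℝ}
    (hc : n * (x / (1 - x)) ≤ c) : Real.exp (-c) ≤ (1 - x) ^ n := by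
  have hp : 0 < 1 - x := by linarith
  have h2 := Real.one_sub_inv_le_log_of_pos hp
  have h3 : 1 - (1 - x)⁻¹ = -(x / (1 - x)) := by
    field_simp
    ring
  rw [h3] at h2
  have h4 : (1 - x) ^ n = Real.exp (n * Real.log (1 - x)) := by
    rw [mul_comm, Real.exp_mul, Real.exp_log hp, Real.rpow_natCast]
  rw [h4]
  apply Real.exp_le_exp.2
  have h5 : (n : ℝ) * -(x / (1 - x)) ≤ n * Real.log (1 - x) :=
    mul_le_mul_of_nonneg_left h2 (Nat.cast_nonneg _)
  linarith

private lemma params_big : ∀ᶠ s : ℝ in Filter.atTop, 1000 * (s + 2) ^ 4 < Real.exp (s / 5) := by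
  have h1 := Real.tendsto_pow_mul_exp_neg_atTop_nhds_zero 4
  have h2 : Filter.Tendsto (fun s : ℝ => s / 5) Filter.atTop Filter.atTop :=
    Filter.tendsto_id.atTop_div_const (by norm_num)
  have h3 := (h1.comp h2).eventually (gt_mem_nhds (show (0 : ℝ) < 1 / 10000000 by norm_num))
  filter_upwards [h3, Filter.eventually_ge_atTop (2 : ℝ)] with s hs h2s
  simp only [Function.comp_apply] at hs
  rw [Real.exp_neg] at hs
  have he := Real.exp_pos (s / 5)
  have h5 : (s / 5) ^ 4 < 1 / 10000000 * Real.exp (s / 5) := by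
    rw [← div_eq_mul_inv, div_lt_iff₀ he] at hs
    exact hs
  have h6 : (s + 2) ^ 4 ≤ (2 * s) ^ 4 := pow_le_pow_left₀ (by linarith) (by linarith) 4
  have h7 : (2 * s) ^ 4 = 10000 * (s / 5) ^ 4 := by ring
  nlinarith

private lemma params_two (s : ℝ) {k : ℕ} (hk : s ≤ k) : Real.exp (s / 2) ≤ 2 ^ k := by
  have h1 : (2 : ℝ) ^ k = Real.exp (k * Real.log 2) := by
    rw [mul_comm, Real.exp_mul, Real.exp_log (by norm_num), Real.rpow_natCast]
  rw [h1]
  apply Real.exp_le_exp.2
  have h2 := Real.log_two_gt_d9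
  nlinarith

theorem exists_par : ∃ n0 : ℕ, ∀ n ≥ n0, ∃ (k m r h : ℕ) (η : ℝ), Par k m r n h η ∧
    2 ^ n / (1000 * √n) ≤ (h : ℝ) := by
  have hsq : Filter.Tendsto (fun n : ℕ => √(n : ℝ)) Filter.atTop Filter.atTop :=
    Real.tendsto_sqrt_atTop.comp tendsto_natCast_atTop_atTop
  have hev := (hsq.eventually params_big).and (hsq.eventually (Filter.eventually_ge_atTop (20 : ℝ)))
  obtain ⟨n0, hn0⟩ := Filter.eventually_atTop.1 hev
  refine ⟨n0, fun n hn => ?_⟩
  obtain ⟨hbig, hs20⟩ := hn0 n hn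
  set s : ℝ := √(n : ℝ) with hs
  have hs0 : 0 < s := by linarith
  have hsn : s ^ 2 = n := Real.sq_sqrt (Nat.cast_nonneg n)
  have hn400 : (400 : ℝ) ≤ n := by nlinarith
  have hsle : s ≤ n := by nlinarith
  have hE5 := Real.exp_pos (s / 5)
  -- `k`
  set k : ℕ := ⌈s⌉₊ with hk
  have hk1 : s ≤ k := Nat.le_ceil s
  have hk2 : (k : ℝ) < s + 1 := Nat.ceil_lt_add_one hs0.le
  -- `η`
  have hkp : (0 : ℝ) < k + 1 := by positivity
  set η : ℝ := 1 / (64 * (k + 1)) with hη
  have hη0 : 0 < η := by positivity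
  have h2s := params_two s hk1
  have h2n := params_two s hsle
  have he2 : Real.exp (s / 5) ≤ Real.exp (s / 2) := Real.exp_le_exp.2 (by linarith)
  -- powers
  have hq1 : Real.exp (-(s / 64)) ≤ (1 - η) ^ n := by
    refine params_pow ?_ n ?_
    · rw [hη, div_lt_one (by positivity)]
      nlinarith
    · have e1 : η / (1 - η) = 1 / (64 * (k + 1) - 1) := by
        rw [hη]
        have : (64 * ((k : ℝ) + 1) - 1) ≠ 0 := by nlinarith
        field_simp
      have h1 : 1 / (64 * ((k : ℝ) + 1) - 1) ≤ 1 / (64 * s) :=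
        one_div_le_one_div_of_le (by positivity) (by linarith)
      rw [e1]
      calc (n : ℝ) * (1 / (64 * ((k : ℝ) + 1) - 1)) ≤ n * (1 / (64 * s)) :=
            mul_le_mul_of_nonneg_left h1 (Nat.cast_nonneg _)
        _ = s / 64 := by
            rw [← hsn]
            field_simp
  have hq4 : Real.exp (-(s / 16)) ≤ (1 - 4 * η) ^ n := by
    have e0 : 4 * η = 1 / (16 * (k + 1)) := by
      rw [hη]
      field_simp
      norm_num
    refine params_pow ?_ n ?_
    · rw [e0, div_lt_one (by positivity)]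
      nlinarith
    · have e1 : 4 * η / (1 - 4 * η) = 1 / (16 * (k + 1) - 1) := by
        rw [e0]
        have : (16 * ((k : ℝ) + 1) - 1) ≠ 0 := by nlinarith
        field_simp
      have h1 : 1 / (16 * ((k : ℝ) + 1) - 1) ≤ 1 / (16 * s) :=
        one_div_le_one_div_of_le (by positivity) (by linarith)
      rw [e1]
      calc (n : ℝ) * (1 / (16 * ((k : ℝ) + 1) - 1)) ≤ n * (1 / (16 * s)) :=
            mul_le_mul_of_nonneg_left h1 (Nat.cast_nonneg _)
        _ = s / 16 := by
            rw [← hsn]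
            field_simp
  -- `m`
  have hy1 : (1 : ℝ) ≤ 4 * n * Real.exp (s / 64) := by
    have : (1 : ℝ) ≤ Real.exp (s / 64) := Real.one_le_exp (by positivity)
    nlinarith
  obtain ⟨m, hm1, hm2⟩ : ∃ m : ℕ, 4 * n * Real.exp (s / 64) ≤ (2 : ℝ) ^ m ∧
      (2 : ℝ) ^ m ≤ 8 * n * Real.exp (s / 64) := by
    obtain ⟨m, h1, h2⟩ := exists_nat_pow_near hy1 (one_lt_two)
    refine ⟨m + 1, h2.le, ?_⟩
    rw [pow_succ]
    linarith
  have hmle : (m : ℝ) ≤ 3 / 2 * s := by
    have h1 : (2 : ℝ) ^ m ≤ Real.exp s := by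
      refine hm2.trans ?_
      have e1 : Real.exp s = Real.exp (s / 5) * Real.exp (4 * s / 5) := by
        rw [← Real.exp_add]
        congr 1
        ring
      rw [e1]
      refine mul_le_mul ?_ (Real.exp_le_exp.2 (by linarith)) (Real.exp_pos _).le hE5.le
      have h3 : s ^ 2 ≤ (s + 2) ^ 2 := pow_le_pow_left₀ hs0.le (by linarith) 2
      have h4 : (s + 2) ^ 2 ≤ (s + 2) ^ 4 := pow_le_pow_right₀ (by linarith) (by norm_num)
      nlinarith
    have h2 : (2 : ℝ) ^ m = Real.exp (m * Real.log 2) := by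
      rw [mul_comm, Real.exp_mul, Real.exp_log (by norm_num), Real.rpow_natCast]
    rw [h2, Real.exp_le_exp] at h1
    have h3 := Real.log_two_gt_d9
    have h4 : (0 : ℝ) ≤ m := Nat.cast_nonneg _
    nlinarith
  have hroom : 4 * k + 4 * m ≤ n := by
    have h1 : (4 * k + 4 * m : ℝ) ≤ n := by nlinarith
    exact_mod_cast h1
  -- `h`
  set h : ℕ := ⌊η * 2 ^ n / 4⌋₊ with hh
  have hh1 : (h : ℝ) ≤ η * 2 ^ n / 4 := Nat.floor_le (by positivity)
  have hh2 : η * 2 ^ n / 4 < h + 1 := Nat.lt_floor_add_one _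
  refine ⟨k, m, n - (4 * k + 4 * m), h, η, ?_, ?_⟩
  swap
  · -- the size of `h`
    have h1 : 1 / (256 * (k + 1)) * (2 : ℝ) ^ n - 1 ≤ h := by
      have : η * 2 ^ n / 4 = 1 / (256 * (k + 1)) * (2 : ℝ) ^ n := by
        rw [hη]
        field_simp
        norm_num
      linarith
    have h2 : 1 / (500 * s) ≤ 1 / (256 * ((k : ℝ) + 1)) :=
      one_div_le_one_div_of_le (by positivity) (by nlinarith)
    have h3 : 1 / (500 * s) * (2 : ℝ) ^ n ≤ 1 / (256 * (k + 1)) * (2 : ℝ) ^ n :=
      mul_le_mul_of_nonneg_right h2 (by positivity)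
    have h4 : 1000 * s ≤ (2 : ℝ) ^ n := by
      have h5 : (s + 2) ^ 1 ≤ (s + 2) ^ 4 := pow_le_pow_right₀ (by linarith) (by norm_num)
      rw [pow_one] at h5
      linarith
    have h5 : (2 : ℝ) ^ n / (1000 * s) = 1 / (500 * s) * (2 : ℝ) ^ n - 2 ^ n / (1000 * s) := by
      field_simp
      norm_num
    have h6 : 1 ≤ (2 : ℝ) ^ n / (1000 * s) := by
      rw [le_div_iff₀ (by positivity)]
      linarith
    linarith
  have hLp : (0 : ℝ) < (k + 1) := hkp
  -- the error
  have herr : err n k η ≤ 3 * (s + 2) ^ 2 * Real.exp (-(s * (11 / 40))) := by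
    have e1 : ((k : ℝ) + 1) ^ 4 / 2 ^ k ≤ (s + 2) ^ 4 * Real.exp (-(69 / 100 * s)) := by
      have h1 : Real.exp (69 / 100 * s) ≤ (2 : ℝ) ^ k := by
        have h1 : (2 : ℝ) ^ k = Real.exp (k * Real.log 2) := by
          rw [mul_comm, Real.exp_mul, Real.exp_log (by norm_num), Real.rpow_natCast]
        rw [h1]
        apply Real.exp_le_exp.2
        have h2 := Real.log_two_gt_d9
        nlinarith
      rw [Real.exp_neg, ← div_eq_mul_inv]
      exact div_le_div₀ (by positivity) (pow_le_pow_left₀ (by positivity) (by linarith) 4)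
        (Real.exp_pos _) h1
    have e2 : (n : ℝ) ^ 2 * 2 ^ k / 2 ^ (n - 1) ≤ (s + 2) ^ 4 * Real.exp (-(69 / 100 * s)) := by
      have h0 : (n : ℝ) ^ 2 ≤ (s + 2) ^ 4 := by
        rw [← hsn, ← pow_mul]
        exact pow_le_pow_left₀ hs0.le (by linarith) 4
      have h1 : (2 : ℝ) ^ k / 2 ^ (n - 1) ≤ Real.exp (-(69 / 100 * s)) := by
        have hn1 : 1 ≤ n := by
          have : (1 : ℝ) ≤ n := by linarith
          exact_mod_cast this
        have h1 : ∀ j : ℕ, (2 : ℝ) ^ j = Real.exp (j * Real.log 2) := fun j => by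
          rw [mul_comm, Real.exp_mul, Real.exp_log (by norm_num), Real.rpow_natCast]
        rw [h1, h1, ← Real.exp_sub]
        apply Real.exp_le_exp.2
        rw [Nat.cast_sub hn1, Nat.cast_one]
        have h2 := Real.log_two_gt_d9
        have h3 := Real.log_two_lt_d9
        have h4 : (k : ℝ) - (n - 1) ≤ -(s * 10) := by nlinarith
        nlinarith
      calc (n : ℝ) ^ 2 * 2 ^ k / 2 ^ (n - 1) = (n : ℝ) ^ 2 * (2 ^ k / 2 ^ (n - 1)) := by ring
        _ ≤ _ := mul_le_mul h0 h1 (by positivity) (by positivity)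
    have e3 : √(((k : ℝ) + 1) ^ 4 / 2 ^ k + n ^ 2 * 2 ^ k / 2 ^ (n - 1)) ≤
        3 / 2 * (s + 2) ^ 2 * Real.exp (-(69 / 200 * s)) := by
      apply Real.sqrt_le_iff.2
      refine ⟨by positivity, ?_⟩
      have e4 : (3 / 2 * (s + 2) ^ 2 * Real.exp (-(69 / 200 * s))) ^ 2 =
          9 / 4 * ((s + 2) ^ 4 * Real.exp (-(69 / 100 * s))) := by
        rw [mul_pow, ← Real.exp_nat_mul]
        have : ((2 : ℕ) : ℝ) * -(69 / 200 * s) = -(69 / 100 * s) := by
          push_cast
          ring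
        rw [this]
        ring
      rw [e4]
      have := mul_nonneg (by positivity : 0 ≤ (s + 2) ^ 4) (Real.exp_pos (-(69 / 100 * s))).le
      linarith
    have e5 : ((1 - 4 * η) ^ n)⁻¹ ≤ Real.exp (s / 16) := by
      rw [inv_le_comm₀ (lt_of_lt_of_le (Real.exp_pos _) hq4) (Real.exp_pos _), ← Real.exp_neg]
      exact hq4
    unfold err
    calc 2 * ((1 - 4 * η) ^ n)⁻¹ * √(((k : ℝ) + 1) ^ 4 / 2 ^ k + n ^ 2 * 2 ^ k / 2 ^ (n - 1)) ≤
        2 * Real.exp (s / 16) * (3 / 2 * (s + 2) ^ 2 * Real.exp (-(69 / 200 * s))) :=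
          mul_le_mul (mul_le_mul_of_nonneg_left e5 (by norm_num)) e3 (Real.sqrt_nonneg _)
            (by positivity)
      _ = 3 * (s + 2) ^ 2 * Real.exp (s / 16 + -(69 / 200 * s)) := by
          rw [Real.exp_add]
          ring
      _ ≤ 3 * (s + 2) ^ 2 * Real.exp (-(s * (11 / 40))) :=
          mul_le_mul_of_nonneg_left (Real.exp_le_exp.2 (by linarith)) (by positivity)
  have hp2 : (s + 2) ^ 2 ≤ (s + 2) ^ 4 := pow_le_pow_right₀ (by linarith) (by norm_num)
  have hb2 : (s + 2) ^ 4 * Real.exp (-(s / 5)) < 1 / 1000 := by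
    rw [Real.exp_neg, ← div_eq_mul_inv, div_lt_iff₀ hE5]
    linarith
  refine ⟨by omega, ?_, hη0, ?_, ?_, ?_, ?_, ?_, ?_⟩
  · have : (4 : ℝ) ≤ k := by linarith
    exact_mod_cast this
  · apply le_of_eq
    rw [hη]
    field_simp
    norm_num
  · linarith
  · -- array
    have h1 : (2 : ℝ) ^ n * 2 ^ (n - 1 - k) ≤ Real.exp (2 * n * Real.log 2) := by
      have h2 : Real.exp (2 * n * Real.log 2) = (2 : ℝ) ^ n * 2 ^ n := by
        rw [← pow_add, ← two_mul]
        have h3 : (2 : ℝ) * n = ((2 * n : ℕ) : ℝ) := by push_cast; ring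
        rw [h3, mul_comm, Real.exp_mul, Real.exp_log (by norm_num), Real.rpow_natCast]
      rw [h2]
      exact mul_le_mul_of_nonneg_left (pow_le_pow_right₀ (by norm_num) (by omega)) (by positivity)
    refine lt_of_le_of_lt (mul_le_mul_of_nonneg_right h1 (Real.exp_pos _).le) ?_
    rw [← Real.exp_add, Real.exp_lt_one_iff]
    have h4 : 2 * (n : ℝ) ≤ η * 2 ^ k / 6 := by
      have e : η * 2 ^ k / 6 = 2 ^ k / (384 * (k + 1)) := by
        rw [hη]
        field_simp
        norm_num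
      rw [e, le_div_iff₀ (by positivity)]
      have h5 : (n : ℝ) * (k + 1) ≤ (s + 2) ^ 4 := by
        have h6 : (n : ℝ) * (k + 1) ≤ s ^ 2 * (s + 2) := by
          rw [← hsn]
          exact mul_le_mul_of_nonneg_left (by linarith) (by positivity)
        have h7 : s ^ 2 * (s + 2) ≤ (s + 2) ^ 2 * (s + 2) :=
          mul_le_mul_of_nonneg_right (pow_le_pow_left₀ hs0.le (by linarith) 2) (by linarith)
        have h8 : (s + 2) ^ 3 ≤ (s + 2) ^ 4 := pow_le_pow_right₀ (by linarith) (by norm_num)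
        nlinarith
      nlinarith
    have h5 := Real.log_two_lt_d9
    have h6 : 2 * (n : ℝ) * Real.log 2 < 2 * n := by nlinarith
    linarith
  · -- blocks
    have h0 : (0 : ℝ) < (1 - η) ^ n := lt_of_lt_of_le (Real.exp_pos _) hq1
    have hη1 : η ≤ 1 := by
      rw [hη, div_le_one (by positivity)]
      nlinarith
    have h1' : (1 - η) ^ n ≤ 1 := pow_le_one₀ (by linarith) (by linarith)
    have h1 : (1 - (1 - η) ^ n) ^ (2 ^ m) ≤ Real.exp (-(4 * n)) := by
      have h2 : 1 - (1 - η) ^ n ≤ Real.exp (-(1 - η) ^ n) := by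
        have := Real.add_one_le_exp (-(1 - η) ^ n)
        linarith
      calc (1 - (1 - η) ^ n) ^ (2 ^ m) ≤ Real.exp (-(1 - η) ^ n) ^ (2 ^ m) :=
            pow_le_pow_left₀ (by linarith) h2 _
        _ = Real.exp (-((2 : ℝ) ^ m * (1 - η) ^ n)) := by
            rw [← Real.exp_nat_mul]
            congr 1
            push_cast
            ring
        _ ≤ _ := by
            apply Real.exp_le_exp.2
            apply neg_le_neg
            have h3 : Real.exp (s / 64) * (1 - η) ^ n ≥ 1 := by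
              have h4 : Real.exp (s / 64) * Real.exp (-(s / 64)) = 1 := by
                rw [← Real.exp_add]
                simp
              exact h4.symm.le.trans (mul_le_mul_of_nonneg_left hq1 (Real.exp_pos _).le)
            calc 4 * (n : ℝ) ≤ 4 * n * (Real.exp (s / 64) * (1 - η) ^ n) :=
                  le_mul_of_one_le_right (by positivity) h3
              _ = 4 * n * Real.exp (s / 64) * (1 - η) ^ n := by ring
              _ ≤ _ := mul_le_mul_of_nonneg_right hm1 h0.le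
    have h2 : (2 : ℝ) ^ (n - 1) * (2 ^ n * (1 - (1 - η) ^ n) ^ (2 ^ m)) ≤
        2 ^ n * (2 ^ n * Real.exp (-(4 * n))) := by
      refine mul_le_mul (pow_le_pow_right₀ (by norm_num) (by omega))
        (mul_le_mul_of_nonneg_left h1 (by positivity)) ?_ (by positivity)
      exact mul_nonneg (by positivity) (pow_nonneg (by linarith) _)
    refine lt_of_le_of_lt h2 ?_
    have h3 : (2 : ℝ) ^ n ≤ Real.exp n := by
      have := pow_le_pow_left₀ (by norm_num) (by
        have := Real.add_one_le_exp (1 : ℝ)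
        linarith : (2 : ℝ) ≤ Real.exp 1) n
      refine this.trans_eq ?_
      rw [← Real.exp_nat_mul, mul_one]
    calc (2 : ℝ) ^ n * (2 ^ n * Real.exp (-(4 * n))) ≤
        Real.exp n * (Real.exp n * Real.exp (-(4 * n))) :=
          mul_le_mul h3 (mul_le_mul_of_nonneg_right h3 (Real.exp_pos _).le) (by positivity)
            (Real.exp_pos _).le
      _ = Real.exp (-(2 * n)) := by
          rw [← Real.exp_add, ← Real.exp_add]
          congr 1
          ring
      _ < 1 / 4 := by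
          rw [Real.exp_neg, ← one_div]
          apply one_div_lt_one_div_of_lt (by norm_num)
          have := Real.add_one_le_exp (2 * (n : ℝ))
          linarith
  · -- err_small
    refine lt_of_le_of_lt herr ?_
    have h1 : (8 * n * Real.exp (s / 64))⁻¹ / 4 ≤ ((2 : ℝ) ^ m)⁻¹ / 4 :=
      div_le_div_of_nonneg_right (inv_anti₀ (by positivity) hm2) (by norm_num)
    refine lt_of_lt_of_le ?_ h1
    rw [← one_div, div_div, lt_div_iff₀ (by positivity)]
    have e1 : Real.exp (-(s * (11 / 40))) * Real.exp (s / 64) ≤ Real.exp (-(s / 5)) := by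
      rw [← Real.exp_add]
      exact Real.exp_le_exp.2 (by linarith)
    have e2 : 3 * (s + 2) ^ 2 * Real.exp (-(s * (11 / 40))) * (8 * n * Real.exp (s / 64) * 4) =
        96 * ((s + 2) ^ 2 * n) * (Real.exp (-(s * (11 / 40))) * Real.exp (s / 64)) := by ring
    rw [e2]
    have e3 : (s + 2) ^ 2 * n ≤ (s + 2) ^ 4 := by
      rw [← hsn]
      have h7 : s ^ 2 ≤ (s + 2) ^ 2 := pow_le_pow_left₀ hs0.le (by linarith) 2
      calc (s + 2) ^ 2 * s ^ 2 ≤ (s + 2) ^ 2 * (s + 2) ^ 2 :=
            mul_le_mul_of_nonneg_left h7 (by positivity)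
        _ = (s + 2) ^ 4 := by ring
    calc 96 * ((s + 2) ^ 2 * (n : ℝ)) * (Real.exp (-(s * (11 / 40))) * Real.exp (s / 64)) ≤
        96 * (s + 2) ^ 4 * Real.exp (-(s / 5)) :=
          mul_le_mul (mul_le_mul_of_nonneg_left e3 (by norm_num)) e1 (by positivity)
            (by positivity)
      _ < 1 := by linarith
  · -- err_large
    refine lt_of_le_of_lt herr ?_
    have h1 : Real.exp (-(s / 16)) / 5 / 4 ≤ (1 - 4 * η) ^ n / 5 / 4 := by linarith
    refine lt_of_lt_of_le ?_ h1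
    have e1 : Real.exp (-(s * (11 / 40))) ≤ Real.exp (-(s / 16)) * Real.exp (-(s / 5)) := by
      rw [← Real.exp_add]
      exact Real.exp_le_exp.2 (by linarith)
    have hE := Real.exp_pos (-(s / 16))
    have e2 : 3 * (s + 2) ^ 2 * Real.exp (-(s / 5)) < 1 / 20 := by
      have := mul_le_mul_of_nonneg_right hp2 (Real.exp_pos (-(s / 5))).le
      linarith
    calc 3 * (s + 2) ^ 2 * Real.exp (-(s * (11 / 40))) ≤
        3 * (s + 2) ^ 2 * (Real.exp (-(s / 16)) * Real.exp (-(s / 5))) :=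
          mul_le_mul_of_nonneg_left e1 (by positivity)
      _ = Real.exp (-(s / 16)) * (3 * (s + 2) ^ 2 * Real.exp (-(s / 5))) := by ring
      _ < Real.exp (-(s / 16)) * (1 / 20) := mul_lt_mul_of_pos_left e2 hE
      _ = Real.exp (-(s / 16)) / 5 / 4 := by ring

end Pool.Agent.Lib.MP_33d9ce_co.Slack
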