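import Pool.Agent.Lib.MP_33d9ce_co.Slack.Exist
import Pool.Agent.Lib.MP_33d9ce_co.Slack.Hall
import Pool.Agent.Lib.MP_33d9ce_co.Slack.Array
import Pool.Agent.Lib.MP_33d9ce_co.Slack.CubeA
import Pool.Agent.Lib.MP_33d9ce_co.Slack.Far
import Pool.Agent.Lib.MP_33d9ce_co.Slack.CubeB
import Pool.Agent.Lib.MP_33d9ce_co.Slack.Params

/-!
# Spanning hypercubes: random placement with slack, assembly
-/

set_option autoImplicit false

noncomputable section

open Classical Finset

namespace Pool.Agent.Lib.MP_33d9ce_co.Slack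

open Data

private lemma main_inv_sq (a b A : ℝ) (ha : 0 < a) (hb : 0 < b) (h : a ≤ A) :
    b⁻¹ ^ 2 ≤ A ^ 2 * (b ^ 2 * a ^ 2)⁻¹ := by
  have hA : 0 < A := lt_of_lt_of_le ha h
  have h1 : a ^ 2 ≤ A ^ 2 := pow_le_pow_left₀ ha.le h 2
  rw [mul_inv, ← mul_assoc, mul_comm (A ^ 2), mul_assoc, inv_pow]
  apply le_mul_of_one_le_right (by positivity)
  rw [← div_eq_mul_inv, le_div_iff₀ (by positivity), one_mul]
  exact h1

private lemma main_num1 (L M : ℝ) (hL : 0 < L) (hM : 0 < M) :
    ((1 + 1 / 16) * M) ^ 2 * (4 * M * (L⁻¹ * ((15 / 16 * M) ^ 2 * ((1 + 1 / 16) * M) ^ 2)⁻¹)) <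
      (L / 5 * M)⁻¹ := by
  have hx : ((1 + 1 / 16) * M) ^ 2 *
      (4 * M * (L⁻¹ * ((15 / 16 * M) ^ 2 * ((1 + 1 / 16) * M) ^ 2)⁻¹)) =
      4 * (256 / 225) * (L⁻¹ * M⁻¹) := by
    field_simp
    norm_num
  have hy : (L / 5 * M)⁻¹ = 5 * (L⁻¹ * M⁻¹) := by
    field_simp
  rw [hx, hy]
  apply mul_lt_mul_of_pos_right (by norm_num)
  positivity

private lemma main_num2 (L M K x z W : ℝ) (hL : 0 < L) (hM : 0 < M) (hK : 0 < K) (hx : 0 ≤ x)
    (hz : 0 ≤ z) :
    4 * ((x * (M / K) + z * K) * M * L⁻¹ ^ 2 * W) =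
      (2 * L⁻¹ * √(x / K + z * K / M) * M) ^ 2 * W := by
  rw [mul_pow, mul_pow, mul_pow, Real.sq_sqrt (by positivity)]
  field_simp
  ring

/-- Dense graphs on `2 ^ n` vertices contain the cube. -/
theorem main_param {k m r n h : ℕ} {η : ℝ} (hp : Par k m r n h η) {V S : Type} [Fintype V] [Fintype S]
    (cardV : Fintype.card V = 2 ^ n) (cS : Fintype.card S = 17 * 2 ^ (k - 4)) (G : SimpleGraph V)
    (hG : ∀ v, ({a | ¬ G.Adj a v} : Finset V).card ≤ h) : ContainsCube n G := by
  obtain ⟨hn, hk, hη, hroom, hdeg, harr, hblocks, herr1, herr2⟩ := hp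
  -- numbers
  have hpos3 : 0 < 3 * k + 4 * m + r := by omega
  have e1 : 3 * k + 4 * m + r = (n - 1 - k) + 1 := by omega
  have cP : Fintype.card (Cell k) = 2 ^ k := card_Cell k
  have cI : Fintype.card (Ev k m r) = 2 ^ (n - 1 - k) := by
    have h1 := card_Ev k m r hpos3
    rw [e1, pow_succ] at h1
    omega
  have cO : Fintype.card (Od k m r) = 2 ^ (n - 1 - k) := by
    have h1 := card_Od k m r hpos3
    rw [e1, pow_succ] at h1
    omega
  have cD : Fintype.card (Dir k m r) = n := by rw [card_Dir, hn]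
  have hkn : k + (n - 1 - k) = n - 1 := by omega
  have hM2 : (2 : ℝ) ^ k * 2 ^ (n - 1 - k) = 2 ^ (n - 1) := by rw [← pow_add, hkn]
  have hn1 : (2 : ℝ) ^ n = 2 * 2 ^ (n - 1) := by
    rw [← pow_succ']; congr 1; omega
  have hk4 : (2 : ℝ) ^ k = 16 * 2 ^ (k - 4) := by
    have : k = 4 + (k - 4) := by omega
    conv_lhs => rw [this, pow_add]
    norm_num
  have hMpos : (0 : ℝ) < 2 ^ (n - 1) := by positivity
  have hkpos : (0 : ℝ) < 2 ^ k := by positivity
  have h4η : 4 * η < 1 := by
    have hk' : (4 : ℝ) ≤ k := by exact_mod_cast hk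
    nlinarith
  have : Nonempty (Ev k m r) := ⟨⟨0, by simp⟩⟩
  have cV : (Fintype.card V : ℝ) = 2 * 2 ^ (n - 1) := by
    rw [cardV]
    push_cast
    exact hn1
  -- the array
  have cSr : (Fintype.card S : ℝ) = 17 / 16 * 2 ^ k := by
    rw [cS, hk4]; push_cast; ring
  obtain ⟨f, hf, hfair⟩ := exists_array (I := Ev k m r) (S := S) (V := V)
    (fun a v => ¬ G.Adj a v) h (fun v => by convert hG v) (by
      have : (Fintype.card (Ev k m r) : ℝ) * Fintype.card S ≤ Fintype.card V := by
        rw [cSr, cI, cV]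
        push_cast
        rw [← hM2]
        nlinarith [mul_pos hkpos (show (0 : ℝ) < 2 ^ (n - 1 - k) by positivity)]
      exact_mod_cast this) (η * 2 ^ k) (by
      rw [cI]
      push_cast
      rw [mul_assoc, hM2]
      rw [hn1] at hdeg
      nlinarith) (by
      rw [cI, cardV]
      push_cast
      exact harr)
  have hfair' : ∀ v i, (({s | ¬ G.Adj (f i s) v} : Finset S).card : ℝ) ≤
      η * Fintype.card (Cell k) := by
    intro v i
    rw [cP]; push_cast
    convert hfair v i
  -- the set `A`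
  set A : Finset V := univ.image (fun x : Ev k m r × S => f x.1 x.2) with hA
  have cA : (A.card : ℝ) = (1 + 1 / 16) * 2 ^ (n - 1) := by
    rw [hA, Finset.card_image_of_injective _ hf, Finset.card_univ, Fintype.card_prod, cI]
    push_cast
    rw [cSr, ← hM2]
    ring
  have hAlt : A.card < Fintype.card V := by
    have : (A.card : ℝ) < Fintype.card V := by
      rw [cA, cV]; nlinarith
    exact_mod_cast this
  have hW : Nonempty (Lab A) := by
    have h1 : A.Nonempty := by
      rw [← Finset.card_pos]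
      have : (0 : ℝ) < A.card := by rw [cA]; positivity
      exact_mod_cast this
    obtain ⟨a, ha⟩ := h1
    have h2 : ∃ b, b ∉ A := by
      by_contra hcon
      push Not at hcon
      rw [Finset.eq_univ_iff_forall.2 hcon, Finset.card_univ] at hAlt
      exact lt_irrefl _ hAlt
    obtain ⟨b, hb⟩ := h2
    exact ⟨((⟨b, hb⟩, ⟨b, hb⟩), (⟨a, ha⟩, ⟨a, ha⟩))⟩
  have hgood : (data A G.Adj f).Good (4 * η) := by
    refine good A G.Adj f hη.le h4η hfair' ?_ hW (by omega)
    rw [cP, cSr]; push_cast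
    nlinarith
  -- the random placement
  have cY : (Fintype.card (Cell k × Od k m r) : ℝ) = 2 ^ (n - 1) := by
    rw [Fintype.card_prod, cP, cO]; push_cast; exact hM2
  have hη1 : η ≤ 1 := by linarith
  set Δ : ℝ := (k + 1) ^ 4 * Fintype.card (Od k m r) +
    (Fintype.card (Dir k m r)) ^ 2 * Fintype.card (Cell k) with hΔ
  obtain ⟨ω, σ, hinj, hlaw, hblk, hcomp, hK⟩ := exists_good hgood Δ
    (fun y => far_count A G.Adj f y) (Ω := V) (K := Cell k × Od k m r)
    (fun v i s => G.Adj (f i s) v) hη.le hη1 hfair'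
    (fun y => univ.image fun c : Fin m → ZMod 2 => shift c y)
    (fun y z hz z' hz' hne t t' => shift_disj y z z' hz hz' hne t t')
    (by
      simp only [shift_card]
      rw [Finset.sum_const, Finset.card_univ, nsmul_eq_mul, cY, cD, cV, ← hn1]
      exact hblocks)
  -- the matching
  set C : Cell k × Od k m r → Finset V := cand G.Adj f σ with hC
  set Φ : Finset V := univ.image (fun x : Ev k m r × Cell k => f x.1 (σ x.1 x.2))
    with hΦ
  have hΦinj : Function.Injective (fun x : Ev k m r × Cell k => f x.1 (σ x.1 x.2)) := by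
    rintro ⟨i, p⟩ ⟨i', p'⟩ hh
    have h1 := @hf (i, σ i p) (i', σ i' p') hh
    simp only [Prod.mk.injEq] at h1
    obtain ⟨h2, h3⟩ := h1
    subst h2
    rw [hinj i h3]
  have cΦ : (Φ.card : ℝ) = 2 ^ (n - 1) := by
    rw [hΦ, Finset.card_image_of_injective _ hΦinj, Finset.card_univ, Fintype.card_prod, cI, cP]
    push_cast
    rw [mul_comm]; exact hM2
  have hΦA : Φ ⊆ A := by
    intro v hv
    simp only [hΦ, Finset.mem_image, Finset.mem_univ, true_and] at hv
    obtain ⟨x, rfl⟩ := hv
    simp only [hA, Finset.mem_image, Finset.mem_univ, true_and]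
    exact ⟨(x.1, σ x.1 x.2), rfl⟩
  set e : ℝ := err n k η with he
  have hL0 : (0 : ℝ) < (1 - 4 * η) ^ n := by
    apply pow_pos; linarith
  have he0 : 0 ≤ e := by
    rw [he]; unfold err; positivity
  have hcB : (Fintype.card {v // v ∉ A} : ℝ) = 15 / 16 * 2 ^ (n - 1) := by
    have h1 : Fintype.card {v // v ∉ A} = Fintype.card V - A.card := by
      rw [Fintype.card_subtype_compl]
      simp
    rw [h1, Nat.cast_sub hAlt.le, cV, cA]
    ring
  have hcA' : (Fintype.card {v // v ∈ A} : ℝ) = (1 + 1 / 16) * 2 ^ (n - 1) := by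
    rw [Fintype.card_coe, cA]
  have hmem : ∀ y w, w ∈ (data A G.Adj f).comp y ((data A G.Adj f).im σ y) →
      (w.1.1 : V) ∈ C y ∧ (w.1.2 : V) ∈ C y ∧ (w.2.1 : V) ∈ C y ∧
      (w.2.2 : V) ∈ C y := by
    intro y w hw
    simp only [Data.comp, Finset.mem_filter, Finset.mem_univ, true_and] at hw
    simp only [hC, cand, Finset.mem_filter, Finset.mem_univ, true_and]
    exact ⟨fun t => (hw t).1, fun t => (hw t).2.1, fun t => (hw t).2.2.1, fun t => (hw t).2.2.2⟩
  have hWcard : (Fintype.card (Lab A) : ℝ) =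
      (15 / 16 * 2 ^ (n - 1)) ^ 2 * ((1 + 1 / 16) * 2 ^ (n - 1)) ^ 2 := by
    simp only [Lab, Fintype.card_prod]
    push_cast
    rw [hcB, hcA']
    ring
  obtain ⟨g, hg, hg2⟩ := hall (Y := Cell k × Od k m r) A Φ hΦA (2 ^ (n - 1)) (1 / 16)
    (by norm_num) le_rfl hMpos cV cY cΦ cA C
    (fun y w => (data A G.Adj f).post ω y ((data A G.Adj f).im σ y) w)
    (fun y w => post_nonneg _ ω y _ w) (fun y => sum_post _ ω y _ (hlaw y))
    (fun y w hw => hmem y w (post_comp hgood hw))
    ((2 ^ m)⁻¹) ((1 - 4 * η) ^ n / 5) (by positivity) (by positivity)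
    (by
      intro v
      have h1 := count_shift (k := k) (m := m) (r := r)
        (fun y => v ∈ C y) (by
          intro y
          obtain ⟨z, hz, hz2⟩ := hblk v y
          refine ⟨z, hz, ?_⟩
          simp only [hC, cand, Finset.mem_filter, Finset.mem_univ, true_and]
          exact hz2)
      have h2 : (Fintype.card (Cell k × Od k m r) : ℝ) ≤
        2 ^ m * (({y | v ∈ C y} : Finset (Cell k × Od k m r)).card : ℝ) := by
        have h1' : Fintype.card (Cell k × Od k m r) ≤
          2 ^ m * ({y | v ∈ C y} : Finset (Cell k × Od k m r)).card := by convert h1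
        exact_mod_cast h1'
      rw [cY] at h2
      have h3 : (0 : ℝ) < 2 ^ m := by positivity
      rw [inv_mul_le_iff₀ h3]
      exact h2)
    (by
      -- the sum of the inverse squares
      have hb : ∀ y, (((C y).filter (· ∉ A)).card : ℝ)⁻¹ ^ 2 ≤
          ((1 + 1 / 16) * 2 ^ (n - 1)) ^ 2 *
            (((data A G.Adj f).comp y ((data A G.Adj f).im σ y)).card : ℝ)⁻¹ := by
        intro y
        have hne := mem_comp_of_law hgood (hlaw y)
        have hpos : 0 < ((data A G.Adj f).comp y ((data A G.Adj f).im σ y)).card :=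
          Finset.card_pos.2 ⟨_, hne⟩
        have hcc := card_comp A G.Adj f σ y
        rw [hcc] at hpos ⊢
        set b := ((cand G.Adj f σ y).filter (· ∉ A)).card with hbdef
        set a := ((cand G.Adj f σ y).filter (· ∈ A)).card with hadef
        have hb0 : (0 : ℝ) < b := by
          have : b ≠ 0 := by
            intro h0; rw [h0] at hpos; simp at hpos
          exact_mod_cast Nat.pos_of_ne_zero this
        have ha0 : (0 : ℝ) < a := by
          have : a ≠ 0 := by
            intro h0; rw [h0] at hpos; simp at hpos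
          exact_mod_cast Nat.pos_of_ne_zero this
        have haA : (a : ℝ) ≤ (1 + 1 / 16) * 2 ^ (n - 1) := by
          rw [← cA]
          have : a ≤ A.card := by
            apply Finset.card_le_card
            intro v hv
            exact (Finset.mem_filter.1 hv).2
          exact_mod_cast this
        push_cast
        exact main_inv_sq _ _ _ ha0 hb0 haA
      have hsum : ∑ y, (((C y).filter (· ∉ A)).card : ℝ)⁻¹ ^ 2 ≤
          ((1 + 1 / 16) * 2 ^ (n - 1)) ^ 2 *
          (4 * Fintype.card (Cell k × Od k m r) * (((1 - 4 * η) ^ Fintype.card (Dir k m r))⁻¹ *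
            (Fintype.card (Lab A) : ℝ)⁻¹)) := by
        calc _ ≤ ∑ y, ((1 + 1 / 16) * 2 ^ (n - 1)) ^ 2 *
            (((data A G.Adj f).comp y ((data A G.Adj f).im σ y)).card : ℝ)⁻¹ :=
              Finset.sum_le_sum fun y _ => hb y
          _ = ((1 + 1 / 16) * 2 ^ (n - 1)) ^ 2 *
            ∑ y, (((data A G.Adj f).comp y ((data A G.Adj f).im σ y)).card : ℝ)⁻¹ := by
              rw [Finset.mul_sum]
          _ ≤ _ := by
              apply mul_le_mul_of_nonneg_left hcomp (by positivity)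
      refine lt_of_le_of_lt hsum ?_
      rw [cY, cD, hWcard]
      exact main_num1 _ _ hL0 hMpos)
    e (by exact herr1) (by exact herr2) he0
    (by
      have hK' := hK
      rw [cY, cD] at hK'
      refine le_trans hK' (le_of_eq ?_)
      have h5 : (2 : ℝ) ^ (n - 1 - k) = 2 ^ (n - 1) / 2 ^ k := by
        rw [eq_div_iff hkpos.ne', mul_comm]; exact hM2
      have hΔ' : Δ = (k + 1) ^ 4 * (2 ^ (n - 1) / 2 ^ k) + (n : ℝ) ^ 2 * 2 ^ k := by
        rw [hΔ, cO, cD, cP]
        push_cast
        rw [h5]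
      rw [hΔ', he]
      exact main_num2 _ _ _ _ _ _ hL0 hMpos hkpos (by positivity) (by positivity))
  -- conclusion
  refine contains (k := k) (m := m) (r := r) hn G f hf σ hinj g hg ?_ ?_
  · intro y i p heq
    apply (hg2 y).2
    rw [heq, hΦ]
    simp only [Finset.mem_image, Finset.mem_univ, true_and]
    exact ⟨(i, p), rfl⟩
  · intro y t
    have h1 := (hg2 y).1
    simp only [hC, cand, Finset.mem_filter, Finset.mem_univ, true_and] at h1
    exact h1 t

end Pool.Agent.Lib.MP_33d9ce_co.Slack
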